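import Pool.Agent.Q67.OR.Defs

set_option autoImplicit false

namespace Pool.Agent.Q67.OR

lemma ok_getD (A : ℕ → ℕ) (hA : ∀ n, 1 ≤ A n) (d : List ℕ) (i : ℕ) : ok A i d ↔
    (∀ l, d.getD l 0 ≤ A (i + l)) ∧ ∀ l, d.getD (l + 1) 0 = A (i + l + 1) → d.getD l 0 = 0 := by
  induction d generalizing i with
  | nil =>
    simp only [ok, true_iff]
    refine ⟨fun l => by simp, fun l h => by simp⟩
  | cons b d ih =>
    simp only [ok]
    rw [ih (i + 1)]
    constructor
    · rintro ⟨h1, h2, h3, h4⟩
      refine ⟨fun l => ?_, fun l h => ?_⟩
      · cases l with
        | zero => simpa using h1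
        | succ l =>
          have := h3 l
          rw [List.getD_cons_succ]
          have e : i + (l + 1) = i + 1 + l := by ring
          rw [e]; exact this
      · cases l with
        | zero =>
          rw [List.getD_cons_succ] at h
          rw [List.getD_cons_zero]
          apply h2
          cases d with
          | nil =>
            simp at h
            have := hA (i + 1)
            omega
          | cons x d =>
            simp at h
            simp [h]
        | succ l =>
          rw [List.getD_cons_succ] at h ⊢
          apply h4 l
          rw [h]
          congr 1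
          ring
    · rintro ⟨h1, h2⟩
      refine ⟨by simpa using h1 0, fun h => ?_, fun l => ?_, fun l h => ?_⟩
      · have := h2 0
        rw [List.getD_cons_succ, List.getD_cons_zero] at this
        apply this
        cases d with
        | nil => simp at h
        | cons x d => simpa using h
      · have := h1 (l + 1)
        rw [List.getD_cons_succ] at this
        have e : i + (l + 1) = i + 1 + l := by ring
        rw [e] at this; exact this
      · have := h2 (l + 1)
        rw [List.getD_cons_succ, List.getD_cons_succ] at this
        apply this
        rw [h]
        congr 1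
        ring

lemma val_getD (qq : ℕ → ℕ) (d : List ℕ) (i : ℕ) :
    val qq i d = ∑ l ∈ Finset.range d.length, d.getD l 0 * qq (i + l + 1) := by
  induction d generalizing i with
  | nil => simp [val]
  | cons b d ih =>
    simp only [val, List.length_cons]
    rw [ih (i + 1), Finset.sum_range_succ']
    rw [List.getD_cons_zero, add_comm]
    congr 1
    apply Finset.sum_congr rfl
    intro l _
    rw [List.getD_cons_succ]
    congr 2
    ring

lemma val_append (qq : ℕ → ℕ) (d1 d2 : List ℕ) (i : ℕ) :
    val qq i (d1 ++ d2) = val qq i d1 + val qq (i + d1.length) d2 := by
  induction d1 generalizing i with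
  | nil => simp [val]
  | cons b d ih =>
    simp only [List.cons_append, val, List.length_cons]
    rw [ih (i + 1)]
    have e : i + (d.length + 1) = i + 1 + d.length := by ring
    rw [e]; ring

lemma ok_append_left (A : ℕ → ℕ) (d1 d2 : List ℕ) (i : ℕ) (h : ok A i (d1 ++ d2)) : ok A i d1 := by
  induction d1 generalizing i with
  | nil => simp [ok]
  | cons b d ih =>
    simp only [List.cons_append, ok] at h ⊢
    refine ⟨h.1, ?_, ih (i + 1) h.2.2⟩
    intro hd
    apply h.2.1
    cases d with
    | nil => simp at hd
    | cons x d => simpa using hd

lemma ok_append_right (A : ℕ → ℕ) (d1 d2 : List ℕ) (i : ℕ) (h : ok A i (d1 ++ d2)) :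
    ok A (i + d1.length) d2 := by
  induction d1 generalizing i with
  | nil => simpa using h
  | cons b d ih =>
    simp only [List.cons_append, ok] at h
    have := ih (i + 1) h.2.2
    simp only [List.length_cons]
    have e : i + (d.length + 1) = i + 1 + d.length := by ring
    rw [e]; exact this

lemma ok_congr (A : ℕ → ℕ) (d1 d2 d3 : List ℕ) (i j : ℕ) (hj : j = i + d1.length)
    (h1 : ok A j d2 ↔ ok A j d3) (h2 : d2.head? = some (A j) ↔ d3.head? = some (A j)) :
    ok A i (d1 ++ d2) ↔ ok A i (d1 ++ d3) := by
  induction d1 generalizing i with
  | nil =>
    simp only [List.length_nil, add_zero] at hj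
    subst hj
    simpa using h1
  | cons b d ih =>
    simp only [List.length_cons] at hj
    simp only [List.cons_append, ok]
    rw [ih (i + 1) (by omega)]
    have : (d ++ d2).head? = some (A (i + 1)) ↔ (d ++ d3).head? = some (A (i + 1)) := by
      cases d with
      | nil =>
        simp only [List.length_nil, zero_add] at hj
        subst hj
        simpa using h2
      | cons x d => simp
    rw [this]

end Pool.Agent.Q67.OR
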