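import Pool.Agent.Q67.OR.Dig
import Pool.Agent.Q67.OR.Lst
import Pool.Agent.Q129.OR.VAL
import Pool.Agent.Q129.OR.WIN

set_option autoImplicit false

namespace Pool.Agent.Q67.OR

open Finset

variable {ξ : ℝ} {A qq : ℕ → ℕ} {pp : ℕ → ℤ} {th : ℕ → ℝ}

/-- digits, least significant first -/
def dig {b : ℕ} (w : List (Fin (b + 1))) : List ℕ := (w.map Fin.val).reverse

lemma dig_append {b : ℕ} (u v : List (Fin (b + 1))) : dig (u ++ v) = dig v ++ dig u := by
  simp [dig]

lemma dig_length {b : ℕ} (u : List (Fin (b + 1))) : (dig u).length = u.length := by simp [dig]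

/-- words of the strict left-to-right maxima of the walk with sign `s` -/
def Lg (s : ℤ) (ξ : ℝ) (A qq : ℕ → ℕ) (b : ℕ) : Language (Fin (b + 1)) :=
  {w | w.head? ≠ some 0 ∧ (dig w).getD 0 0 < A 0 ∧ ok A 0 (dig w) ∧
    ∀ n < val qq 0 (dig w), T s ξ 0 n < T s ξ 0 (val qq 0 (dig w))}

/-- data of a digit list placed at position `j` -/
noncomputable def D (s : ℤ) (ξ : ℝ) (A qq : ℕ → ℕ) (th : ℕ → ℝ) (j : ℕ) (d : List ℕ) :
    Prop × Prop × Prop × box.powerset × (Fin 570 → Prop) :=
  (d.getD 0 0 < A 0, ok A j d, d.head? = some (A j), ⟨cell th j (pos th j d), cell_sub j _⟩,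
    fun t => ok A j d ∧ K s ξ qq j d (Mx s ξ (qq (j + 1)) 0 - 406 + (t : ℕ)))

lemma finite_range_of_factor {α β γ : Type*} [Finite γ] (g : α → γ) (F : α → β)
    (h : ∀ a b, g a = g b → F a = F b) : (Set.range F).Finite := by
  apply Set.Finite.subset (Set.finite_range (fun c : Set.range g => F (Classical.choose c.2)))
  rintro _ ⟨a, rfl⟩
  refine ⟨⟨g a, a, rfl⟩, ?_⟩
  apply h
  exact Classical.choose_spec (⟨a, rfl⟩ : ∃ y, g y = g a)

lemma Mx_shift (c : CF ξ A qq pp th) {s : ℤ} {n L : ℕ} {ρ : ℝ} {e : ℤ}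
    (h : Sim s ξ qq th n L ρ e) :
    Mx s ξ (qq (n + L + 1)) 0 = Mx s ξ (qq (n + 1)) 0 + e := by
  have h0 : |(0 : ℝ)| ≤ |th n| := by rw [abs_zero]; exact abs_nonneg _
  have hh := (h 0 h0).2
  have hp1 := c.qq_pos n
  have hp2 := c.qq_pos (n + L)
  rw [mul_zero] at hh
  simp only [B_iff s ξ (show 0 < qq (n + 1) by omega),
    B_iff s ξ (show 0 < qq (n + L + 1) by omega)] at hh
  have h1 := (hh (Mx s ξ (qq (n + 1)) 0 + 1)).2 (by omega)
  have h2 := hh (Mx s ξ (qq (n + 1)) 0)
  have h3 : ¬ Mx s ξ (qq (n + L + 1)) 0 < Mx s ξ (qq (n + 1)) 0 + e := by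
    rw [h2]; exact lt_irrefl _
  omega

lemma D_shift (c : CF ξ A qq pp th) {s : ℤ} {n1 L : ℕ} {ρ : ℝ} {e : ℤ} (hρ : 0 < ρ)
    (hwin : ∀ (d : List ℕ) (i : ℕ), ok A i d → |pos th i d| ≤ |th i|)
    (hA : ∀ n, n1 ≤ n → A (n + L) = A n)
    (ht : ∀ n, n1 ≤ n → th (n + L) = ρ * th n)
    (hS : ∀ n, n1 ≤ n → Sim s ξ qq th n L ρ e) (d : List ℕ) (i : ℕ) (hi : n1 ≤ i) :
    D s ξ A qq th (i + L) d = D s ξ A qq th i d := by
  unfold D
  have h1 := ok_shift hA d i hi
  have h2 : (ok A (i + L) d) = (ok A i d) := propext h1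
  have h3 : cell th (i + L) (pos th (i + L) d) = cell th i (pos th i d) := by
    rw [pos_shift ht d i hi]
    exact cell_scale hρ (ht i hi) (ht (i + 1) (by omega)) _
  have hM := Mx_shift c (hS i hi)
  rw [Prod.mk.injEq, Prod.mk.injEq, Prod.mk.injEq, Prod.mk.injEq]
  refine ⟨rfl, h2, by rw [hA i hi], Subtype.ext h3, ?_⟩
  funext t
  rw [h2]
  apply propext
  apply and_congr_right
  intro hok
  have hK := K_shift c hwin ht hS d i hi hok (Mx s ξ (qq (i + 1)) 0 - 406 + (t : ℕ))
  rw [← hK, hM]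
  have : Mx s ξ (qq (i + 1)) 0 + e - 406 + ((t : ℕ) : ℤ) =
    Mx s ξ (qq (i + 1)) 0 - 406 + ((t : ℕ) : ℤ) + e := by ring
  rw [this]

/-- the data at position `|v|` decide membership of `u ++ v` -/
lemma mem_of_D (c : CF ξ A qq pp th) {s : ℤ} (hs : |s| = 1) {b : ℕ}
    (hwin : ∀ (d : List ℕ) (i : ℕ), ok A i d → |pos th i d| ≤ |th i|)
    (u u' v : List (Fin (b + 1)))
    (hu : val qq v.length (dig u) ≠ 0) (hu' : val qq v.length (dig u') ≠ 0)
    (_hne : u ≠ []) (hne' : u' ≠ []) (hh : u'.head? ≠ some 0)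
    (hD : D s ξ A qq th v.length (dig u) = D s ξ A qq th v.length (dig u'))
    (hmem : u ++ v ∈ Lg s ξ A qq b) : u' ++ v ∈ Lg s ξ A qq b := by
  unfold D at hD
  rw [Prod.mk.injEq, Prod.mk.injEq, Prod.mk.injEq, Prod.mk.injEq] at hD
  obtain ⟨e1, e2, e3, e4, e5⟩ := hD
  have e4' : cell th v.length (pos th v.length (dig u)) =
    cell th v.length (pos th v.length (dig u')) := congrArg Subtype.val e4
  obtain ⟨m1, m2, m3, m4⟩ := hmem
  rw [dig_append] at m2 m3 m4
  have hl : (dig v).length = v.length := dig_length v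
  have okv : ok A 0 (dig v) := ok_append_left A _ _ _ m3
  have oku : ok A v.length (dig u) := by
    have := ok_append_right A _ _ _ m3
    rwa [hl, zero_add] at this
  have oku' : ok A v.length (dig u') := by rw [← e2]; exact oku
  have hok' : ok A 0 (dig v ++ dig u') := by
    rw [← ok_congr A (dig v) (dig u) (dig u') 0 v.length (by rw [hl, zero_add])
      (by rw [e2]) (by rw [e3])]
    exact m3
  have hlow' : (dig v ++ dig u').getD 0 0 < A 0 := by
    rcases hv : dig v with _ | ⟨x, l⟩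
    · rw [hv] at m2
      rw [List.nil_append] at m2 ⊢
      rw [← e1]; exact m2
    · rw [hv] at m2
      simpa using m2
  have hlowv : (dig v).getD 0 0 < A 0 := by
    rcases hv : dig v with _ | ⟨x, l⟩
    · simp; exact c.Apos 0
    · rw [hv] at m2
      simpa using m2
  refine ⟨?_, by rw [dig_append]; exact hlow', by rw [dig_append]; exact hok', ?_⟩
  · cases u' with
    | nil => exact absurd rfl hne'
    | cons x l => simpa using hh
  · rw [dig_append, val_append, hl, zero_add, add_comm, c.rec_iff]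
    rw [val_append, hl, zero_add, add_comm, c.rec_iff] at m4
    -- the value of v is small
    have hvb : val qq 0 (dig v) < qq (v.length + 1) := by
      rw [val_getD, hl]
      have hgd := (ok_getD A c.Apos (dig v) 0).1 okv
      have := Pool.Agent.Q129.OR.t_VAL A qq (fun l => (dig v).getD l 0) c.Apos c.qq0 c.qq1 c.qqs
        hlowv (fun i => by simpa using hgd.1 i) (fun i hi => hgd.2 i (by simpa using hi)) v.length
      simpa using this
    set m := val qq 0 (dig v) with hm
    have hx := hwin _ _ oku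
    have hx' := hwin _ _ oku'
    have hT : ∀ k, k ≤ m → T s ξ (pos th v.length (dig u)) k =
        T s ξ (pos th v.length (dig u')) k := fun k hk =>
      c.T_cell hx hx' e4' (by omega)
    obtain ⟨r1, r2⟩ := m4
    rw [hT m le_rfl] at r2
    refine ⟨fun m' hm' => ?_, ?_⟩
    · have := r1 m' hm'
      rwa [hT m' hm'.le, hT m le_rfl] at this
    · set z := T s ξ (pos th v.length (dig u')) m with hz
      have hlowz := c.K_low hwin hs _ _ z oku (by omega) r2
      have hz1 : z ≤ Mx s ξ (qq (v.length + 1)) (pos th v.length (dig u')) := le_Mx s ξ hvb _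
      have h0 : |(0 : ℝ)| ≤ |th v.length| := by rw [abs_zero]; exact abs_nonneg _
      have hp := c.qq_pos v.length
      have hz2 := (abs_le.1 (c.Mx_diff hs hx' h0 (by omega : 0 < qq (v.length + 1)) le_rfl)).2
      have hz3 : z ≤ Mx s ξ (qq (v.length + 1)) 0 + 162 := by linarith
      obtain ⟨t, ht⟩ : ∃ t : ℕ, z = Mx s ξ (qq (v.length + 1)) 0 - 406 + t := by
        refine ⟨(z - (Mx s ξ (qq (v.length + 1)) 0 - 406)).toNat, ?_⟩
        rw [Int.toNat_of_nonneg (by linarith)]; ring
      have htb : t < 570 := by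
        have : (t : ℤ) < 570 := by linarith
        exact_mod_cast this
      have h5 := congrFun e5 ⟨t, htb⟩
      simp only at h5
      rw [← ht] at h5
      have : (ok A v.length (dig u') ∧ K s ξ qq v.length (dig u') z) := by
        rw [← h5]; exact ⟨oku, r2⟩
      exact this.2

lemma val_dig_ne (c : CF ξ A qq pp th) {b : ℕ} (u : List (Fin (b + 1))) (hne : u ≠ [])
    (hh : u.head? ≠ some 0) (i : ℕ) : val qq i (dig u) ≠ 0 := by
  rw [Ne, val_zero_iff c]
  intro h
  cases u with
  | nil => exact hne rfl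
  | cons x l =>
    have := h (x : ℕ) (by simp [dig])
    apply hh
    simp only [List.head?_cons, Option.some.injEq]
    exact Fin.ext (by simpa using this)

theorem Lg_regular (c : CF ξ A qq pp th) {s : ℤ} (hs : |s| = 1) {n0 P : ℕ} {r : ℝ} (hP : 0 < P)
    (hr : 0 < r) (hA : ∀ n, n0 ≤ n → A (n + P) = A n)
    (ht : ∀ n, n0 ≤ n → th (n + P) = r * th n) (b : ℕ) : (Lg s ξ A qq b).IsRegular := by
  have hwin : ∀ (d : List ℕ) (i : ℕ), ok A i d → |pos th i d| ≤ |th i| :=
    fun d i h => Pool.Agent.Q129.OR.t_WIN ξ A qq pp th c d i h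
  obtain ⟨a, a', haa, e, hS⟩ := c.pig hs hP hr hA ht
  set L := (a' - a) * P with hL
  have hLpos : 0 < L := Nat.mul_pos (by omega) hP
  set n1 := n0 + a * P with hn1
  have hρ : 0 < r ^ (a' - a) := pow_pos hr _
  have hth : ∀ n, n1 ≤ n → th (n + L) = r ^ (a' - a) * th n :=
    fun n hn => iter_th ht _ n (by omega)
  have hAA : ∀ n, n1 ≤ n → A (n + L) = A n := fun n hn => iter_A hA _ n (by omega)
  rw [Language.isRegular_iff_finite_range_leftQuotient]
  apply finite_range_of_factor
    (g := fun u : List (Fin (b + 1)) => ((u = [] : Prop), (u.head? = some 0 : Prop),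
      fun j : Fin (n1 + L) => D s ξ A qq th j (dig u)))
  intro u u' h
  simp only [Prod.mk.injEq] at h
  obtain ⟨h1, h2, h3⟩ := h
  have h3' : ∀ j, j < n1 + L → D s ξ A qq th j (dig u) = D s ξ A qq th j (dig u') :=
    fun j hj => congrFun h3 ⟨j, hj⟩
  have h4 : ∀ j, D s ξ A qq th j (dig u) = D s ξ A qq th j (dig u') := by
    intro j
    induction j using Nat.strong_induction_on with
    | _ j ih =>
      by_cases hj : j < n1 + L
      · exact h3' j hj
      · obtain ⟨i, rfl⟩ : ∃ i, j = i + L := ⟨j - L, by omega⟩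
        rw [D_shift c hρ hwin hAA hth hS _ i (by omega),
          D_shift c hρ hwin hAA hth hS _ i (by omega)]
        exact ih i (by omega)
  by_cases hu : u = []
  · have hu' : u' = [] := by rw [← h1]; exact hu
    rw [hu, hu']
  have hu' : u' ≠ [] := fun h => hu (by rw [h1]; exact h)
  by_cases hh : u.head? = some 0
  · have hh' : u'.head? = some 0 := by rw [← h2]; exact hh
    have emp : ∀ w : List (Fin (b + 1)), w.head? = some 0 → ∀ v, w ++ v ∉ Lg s ξ A qq b := by
      intro w hw v hv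
      apply hv.1
      cases w with
      | nil => simp at hw
      | cons x l => simpa using hw
    ext v
    rw [Language.mem_leftQuotient, Language.mem_leftQuotient]
    exact ⟨fun h => absurd h (emp u hh v), fun h => absurd h (emp u' hh' v)⟩
  have hh' : u'.head? ≠ some 0 := fun h => hh (by rw [h2]; exact h)
  ext v
  rw [Language.mem_leftQuotient, Language.mem_leftQuotient]
  exact ⟨mem_of_D c hs hwin u u' v (val_dig_ne c u hu hh _) (val_dig_ne c u' hu' hh' _) hu hu'
      hh' (h4 _),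
    mem_of_D c hs hwin u' u v (val_dig_ne c u' hu' hh' _) (val_dig_ne c u hu hh _) hu' hu
      hh (h4 _).symm⟩

end Pool.Agent.Q67.OR
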