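import Pool.Agent.Q67.OR.Defs

set_option autoImplicit false

namespace Pool.Agent.Q67.OR

open Finset

lemma f_add_int (s : ℤ) (y : ℝ) (k : ℤ) : f s (y + k) = f s y := by
  unfold f
  have : ⌊2 * (y + k)⌋ = ⌊2 * y⌋ + 2 * k := by
    have h : 2 * (y + (k : ℝ)) = 2 * y + ((2 * k : ℤ) : ℝ) := by push_cast; ring
    rw [h, Int.floor_add_intCast]
  rw [this]
  have h2 : Even (⌊2 * y⌋ + 2 * k) ↔ Even ⌊2 * y⌋ := by
    rw [Int.even_add]
    simp
  simp [h2]

lemma f_neg (s : ℤ) (y : ℝ) (hy : ∀ k : ℤ, 2 * y ≠ k) : f s (-y) = - f s y := by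
  unfold f
  have h1 : ⌊2 * (-y)⌋ = -⌊2 * y⌋ - 1 := by
    rw [Int.floor_eq_iff]
    have h2 := Int.floor_le (2 * y)
    have h3 := Int.lt_floor_add_one (2 * y)
    have h4 : (⌊2 * y⌋ : ℝ) ≠ 2 * y := fun h => hy _ h.symm
    have h5 : (⌊2 * y⌋ : ℝ) < 2 * y := lt_of_le_of_ne h2 h4
    push_cast
    constructor <;> linarith
  rw [h1]
  have h2 : Even (-⌊2 * y⌋ - 1) ↔ ¬ Even ⌊2 * y⌋ := by
    rw [Int.even_sub]
    simp
  by_cases h : Even ⌊2 * y⌋
  · simp [h2, h]
  · simp [h2, h]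

lemma f_abs {s : ℤ} (hs : |s| = 1) (y : ℝ) : |f s y| = 1 := by
  unfold f
  split_ifs <;> simp [hs]

lemma f_eq_of_floor (s : ℤ) {x y : ℝ} (h : ⌊2 * x⌋ = ⌊2 * y⌋) : f s x = f s y := by
  unfold f; rw [h]

lemma T_zero (s : ℤ) (ξ x : ℝ) : T s ξ x 0 = 0 := by simp [T]

lemma T_succ (s : ℤ) (ξ x : ℝ) (m : ℕ) : T s ξ x (m + 1) = T s ξ x m + f s (x + (m + 1) * ξ) := by
  simp [T, Finset.sum_range_succ]

lemma T_add (s : ℤ) (ξ x : ℝ) (m n : ℕ) :
    T s ξ x (m + n) = T s ξ x m + T s ξ (x + m * ξ) n := by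
  unfold T
  rw [Finset.sum_range_add]
  congr 1
  apply Finset.sum_congr rfl
  intro j _
  congr 1
  push_cast
  ring

lemma T_int (s : ℤ) (ξ x : ℝ) (k : ℤ) (m : ℕ) : T s ξ (x + k) m = T s ξ x m := by
  unfold T
  apply Finset.sum_congr rfl
  intro j _
  have : x + (k : ℝ) + ((j : ℝ) + 1) * ξ = (x + ((j : ℝ) + 1) * ξ) + k := by ring
  rw [this, f_add_int]

lemma T_congr (s : ℤ) (ξ x y : ℝ) (h : ∃ k : ℤ, x = y + k) (m : ℕ) : T s ξ x m = T s ξ y m := by
  obtain ⟨k, rfl⟩ := h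
  exact T_int s ξ y k m

variable {ξ : ℝ} {A qq : ℕ → ℕ} {pp : ℕ → ℤ} {th : ℕ → ℝ}

namespace CF

variable (c : CF ξ A qq pp th)
include c

lemma T_block (s : ℤ) (x : ℝ) (n m : ℕ) :
    T s ξ x (qq n + m) = T s ξ x (qq n) + T s ξ (x + th n) m := by
  rw [T_add]
  congr 1
  apply T_congr
  refine ⟨pp n, ?_⟩
  rw [c.thd n]; ring

/-- `k` blocks -/
lemma T_blocks (s : ℤ) (x : ℝ) (n k m : ℕ) :
    T s ξ x (k * qq n + m) =
      ∑ l ∈ range k, T s ξ (x + l * th n) (qq n) + T s ξ (x + k * th n) m := by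
  induction k generalizing m with
  | zero => simp
  | succ k ih =>
    have h : (k + 1) * qq n + m = k * qq n + (qq n + m) := by ring
    rw [h, ih, Finset.sum_range_succ, c.T_block]
    have h2 : x + (k : ℝ) * th n + th n = x + ((k + 1 : ℕ) : ℝ) * th n := by push_cast; ring
    rw [h2]
    ring

lemma th_ne (n : ℕ) : th n ≠ 0 := by
  have := c.alt n
  intro h
  rw [h, mul_zero] at this
  exact lt_irrefl _ this

lemma abs_th (n : ℕ) : |th n| = A n * |th (n + 1)| + |th (n + 2)| := by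
  have h1 := c.alt n
  have h2 := c.alt (n + 1)
  have h3 := c.ths n
  have hA : (0 : ℝ) ≤ A n := Nat.cast_nonneg _
  rcases lt_or_gt_of_ne (c.th_ne (n + 1)) with h | h
  · have h4 : 0 < th n := by nlinarith
    have h5 : 0 < th (n + 2) := by
      by_contra hc
      push Not at hc
      have : 0 ≤ th (n + 2) * th (n + 1) := mul_nonneg_of_nonpos_of_nonpos hc h.le
      linarith [c.alt (n + 1)]
    rw [abs_of_pos h4, abs_of_neg h, abs_of_pos h5]
    linarith
  · have h4 : th n < 0 := by nlinarith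
    have h5 : th (n + 2) < 0 := by
      by_contra hc
      push Not at hc
      have : 0 ≤ th (n + 2) * th (n + 1) := mul_nonneg hc h.le
      linarith [c.alt (n + 1)]
    rw [abs_of_neg h4, abs_of_pos h, abs_of_neg h5]
    linarith

lemma det (n : ℕ) : (qq (n + 1) : ℤ) * pp n - qq n * pp (n + 1) = (-1) ^ n := by
  induction n with
  | zero =>
    have h0 := c.thd 0
    rw [c.qq0, c.th0] at h0
    have hp : (pp 0 : ℝ) = 1 := by push_cast at h0; linarith
    have hp' : pp 0 = 1 := by exact_mod_cast hp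
    rw [zero_add, c.qq1, c.qq0, hp']
    simp
  | succ n ih =>
    have hp : pp (n + 2) = A n * pp (n + 1) + pp n := by
      have h := c.ths n
      rw [c.thd, c.thd, c.thd, c.qqs] at h
      push_cast at h
      have : (pp (n + 2) : ℝ) = A n * pp (n + 1) + pp n := by linarith
      exact_mod_cast this
    rw [c.qqs, hp, pow_succ, ← ih]
    push_cast
    ring

lemma qth (n : ℕ) : (qq (n + 1) : ℝ) * |th n| + qq n * |th (n + 1)| = 1 := by
  have h := c.det n
  have h' : (qq (n + 1) : ℝ) * pp n - qq n * pp (n + 1) = (-1) ^ n := by exact_mod_cast h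
  have e : (qq (n + 1) : ℝ) * th n - qq n * th (n + 1) = - (-1) ^ n := by
    rw [c.thd, c.thd]; linear_combination -h'
  have h1 := c.alt n
  have q1 : (0 : ℝ) ≤ qq (n + 1) := Nat.cast_nonneg _
  have q2 : (0 : ℝ) ≤ qq n := Nat.cast_nonneg _
  have e2 : |(qq (n + 1) : ℝ) * th n - qq n * th (n + 1)| = 1 := by
    rw [e, abs_neg, abs_pow, abs_neg, abs_one, one_pow]
  rcases lt_or_gt_of_ne (c.th_ne n) with h2 | h2
  · have h3 : 0 < th (n + 1) := by
      by_contra hc
      push Not at hc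
      have : 0 ≤ th (n + 1) * th n := mul_nonneg_of_nonpos_of_nonpos hc h2.le
      linarith
    rw [abs_of_neg h2, abs_of_pos h3]
    rw [abs_of_nonpos] at e2
    · linarith
    · nlinarith
  · have h3 : th (n + 1) < 0 := by
      by_contra hc
      push Not at hc
      have : 0 ≤ th (n + 1) * th n := mul_nonneg hc h2.le
      linarith
    rw [abs_of_pos h2, abs_of_neg h3]
    rw [abs_of_nonneg] at e2
    · linarith
    · nlinarith

lemma q1 (n : ℕ) : (qq (n + 1) : ℝ) * |th n| ≤ 1 := by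
  have := c.qth n
  have h2 : (0 : ℝ) ≤ qq n * |th (n + 1)| := by positivity
  linarith

lemma q2 (n : ℕ) : (qq n : ℝ) * |th (n + 1)| ≤ 1 := by
  have := c.qth n
  have h2 : (0 : ℝ) ≤ qq (n + 1) * |th n| := by positivity
  linarith

lemma qq_pos (n : ℕ) : 1 ≤ qq (n + 1) := by
  induction n using Nat.strong_induction_on with
  | _ n ih =>
    match n with
    | 0 => rw [zero_add, c.qq1]
    | n + 1 =>
      rw [c.qqs]
      have h1 := ih n (by omega)
      have h2 := c.Apos n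
      nlinarith

lemma qq_mono_succ (n : ℕ) : qq n ≤ qq (n + 1) := by
  match n with
  | 0 => rw [c.qq0]; exact Nat.zero_le _
  | n + 1 =>
    rw [c.qqs]
    have h2 := c.Apos n
    nlinarith [Nat.zero_le (qq (n + 1)), Nat.zero_le (qq n)]

lemma qq_mono : Monotone qq := monotone_nat_of_le_succ c.qq_mono_succ

/-- window for the first blocks -/
lemma win1 (n : ℕ) (x : ℝ) (k : ℕ) (hx : |x| ≤ |th (n + 1)|) (hk : k < A n) :
    |x + k * th (n + 1)| ≤ |th n| := by
  have h1 := c.abs_th n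
  have h2 : |x + k * th (n + 1)| ≤ |x| + k * |th (n + 1)| := by
    calc |x + k * th (n + 1)| ≤ |x| + |k * th (n + 1)| := abs_add_le _ _
      _ = |x| + k * |th (n + 1)| := by rw [abs_mul, Nat.abs_cast]
  have h3 : ((k : ℝ) + 1) ≤ A n := by exact_mod_cast hk
  have h4 := abs_nonneg (th (n + 1))
  have h5 := abs_nonneg (th (n + 2))
  nlinarith

/-- window for the last block -/
lemma win2 (n : ℕ) (x : ℝ) (hx : |x| ≤ |th (n + 2)|) :
    |x + A (n + 1) * th (n + 2)| ≤ |th n| := by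
  have h1 := c.abs_th (n + 1)
  have h0 := c.abs_th n
  have h2 : |x + A (n + 1) * th (n + 2)| ≤ |x| + A (n + 1) * |th (n + 2)| := by
    calc |x + A (n + 1) * th (n + 2)| ≤ |x| + |A (n + 1) * th (n + 2)| := abs_add_le _ _
      _ = |x| + A (n + 1) * |th (n + 2)| := by
        rw [abs_mul, Nat.abs_cast]
  have h3 : (1 : ℝ) ≤ A n := by exact_mod_cast c.Apos n
  have h4 := abs_nonneg (th (n + 1))
  have h5 := abs_nonneg (th (n + 3))
  nlinarith

end CF

end Pool.Agent.Q67.OR
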