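import Pool.Agent.Q67.OR.Basic

set_option autoImplicit false

namespace Pool.Agent.Q67.OR

open Finset

variable {ξ : ℝ} {A qq : ℕ → ℕ} {pp : ℕ → ℤ} {th : ℕ → ℝ}

/-- box of coefficients -/
noncomputable def box : Finset (ℤ × ℤ) := Icc (-4) 4 ×ˢ Icc (-4) 4

lemma box_card : box.card = 81 := by decide

/-- which cut points lie to the right of `x` -/
noncomputable def cell (th : ℕ → ℝ) (n : ℕ) (x : ℝ) : Finset (ℤ × ℤ) := by
  classical
  exact box.filter (fun p => 2 * x < p.1 * th (n + 1) + p.2 * th n)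

lemma mem_cell (n : ℕ) (x : ℝ) (p : ℤ × ℤ) :
    p ∈ cell th n x ↔ p ∈ box ∧ 2 * x < p.1 * th (n + 1) + p.2 * th n := by
  classical
  simp [cell]

lemma cell_sub (n : ℕ) (x : ℝ) : cell th n x ∈ box.powerset := by
  rw [Finset.mem_powerset]
  intro p hp
  exact ((mem_cell n x p).1 hp).1

namespace CF

variable (c : CF ξ A qq pp th)
include c

lemma cut {s : ℤ} {n : ℕ} {x y : ℝ} (hx : |x| ≤ |th n|) (hy : |y| ≤ |th n|) (hxy : x ≤ y)
    {j : ℕ} (hj : j ≤ qq (n + 1)) (hf : f s (x + j * ξ) ≠ f s (y + j * ξ)) :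
    ∃ p : ℤ × ℤ, p ∈ box ∧ p.1 * qq (n + 1) + p.2 * qq n = -2 * (j : ℤ) ∧
      2 * x < p.1 * th (n + 1) + p.2 * th n ∧ p.1 * th (n + 1) + p.2 * th n ≤ 2 * y := by
  have hfl : ⌊2 * (x + j * ξ)⌋ ≠ ⌊2 * (y + j * ξ)⌋ := fun h => hf (f_eq_of_floor s h)
  have hle : ⌊2 * (x + j * ξ)⌋ ≤ ⌊2 * (y + j * ξ)⌋ := Int.floor_le_floor (by linarith)
  have hlt : ⌊2 * (x + j * ξ)⌋ < ⌊2 * (y + j * ξ)⌋ := lt_of_le_of_ne hle hfl
  set h : ℤ := ⌊2 * (y + j * ξ)⌋ with hh
  have h1 : 2 * (x + j * ξ) < h := Int.floor_lt.1 hlt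
  have h2 : (h : ℝ) ≤ 2 * (y + j * ξ) := Int.floor_le _
  have hd := c.det n
  set e : ℤ := (-1) ^ n with he
  have he2 : e * e = 1 := by
    rw [he, ← pow_add, ← two_mul, pow_mul]; norm_num
  have hd' : (qq (n + 1) : ℝ) * pp n - qq n * pp (n + 1) = e := by exact_mod_cast hd
  have he2' : (e : ℝ) * e = 1 := by exact_mod_cast he2
  have heabs : |(e : ℝ)| = 1 := by
    have : (e : ℝ) = (-1) ^ n := by rw [he]; push_cast; ring
    rw [this, abs_pow, abs_neg, abs_one, one_pow]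
  set α : ℤ := e * (-2 * j * pp n + h * qq n) with hα
  set β : ℤ := e * (-h * qq (n + 1) + 2 * j * pp (n + 1)) with hβ
  have eα : (α : ℝ) = e * (-2 * j * pp n + h * qq n) := by rw [hα]; push_cast; ring
  have eβ : (β : ℝ) = e * (-h * qq (n + 1) + 2 * j * pp (n + 1)) := by rw [hβ]; push_cast; ring
  have k1 : α * qq (n + 1) + β * qq n = -2 * (j : ℤ) := by
    rw [hα, hβ]
    linear_combination (-2 * (j : ℤ)) * he2 + (-2 * (j : ℤ) * e) * hd
  have k2 : (α : ℝ) * th (n + 1) + β * th n = h - 2 * j * ξ := by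
    rw [c.thd, c.thd, eα, eβ]
    linear_combination (-2 * (j : ℝ) * ξ + h) * he2' + (e * (-2 * (j : ℝ) * ξ + h)) * hd'
  have hb1 : |(h : ℝ) - 2 * j * ξ| ≤ 2 * |th n| := by
    have a1 := abs_le.1 hx
    have a2 := abs_le.1 hy
    rw [abs_le]
    constructor <;> linarith
  have hjr : (j : ℝ) ≤ qq (n + 1) := by exact_mod_cast hj
  have hqm : (qq n : ℝ) ≤ qq (n + 1) := by exact_mod_cast c.qq_mono_succ n
  have hq1 := c.q1 n
  have ht0 := abs_nonneg (th n)
  have ht1 := abs_nonneg (th (n + 1))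
  have hdec := (c.dec n).le
  have hj0 : (0 : ℝ) ≤ j := Nat.cast_nonneg _
  have hq0 : (0 : ℝ) ≤ qq n := Nat.cast_nonneg _
  have hqq0 : (0 : ℝ) ≤ qq (n + 1) := Nat.cast_nonneg _
  have bα : |(α : ℝ)| ≤ 4 := by
    have : (α : ℝ) = e * (qq n * (h - 2 * j * ξ) + 2 * j * th n) := by
      rw [eα]
      have := c.thd n
      rw [this]; ring
    rw [this, abs_mul, heabs, one_mul]
    calc |qq n * (h - 2 * j * ξ) + 2 * j * th n|
        ≤ |qq n * ((h : ℝ) - 2 * j * ξ)| + |2 * j * th n| := abs_add_le _ _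
      _ = qq n * |(h : ℝ) - 2 * j * ξ| + 2 * j * |th n| := by
          rw [abs_mul, abs_mul, Nat.abs_cast, abs_of_nonneg (by positivity : (0 : ℝ) ≤ 2 * j)]
      _ ≤ qq (n + 1) * (2 * |th n|) + 2 * qq (n + 1) * |th n| := by
          have m1 : qq n * |(h : ℝ) - 2 * j * ξ| ≤ qq (n + 1) * (2 * |th n|) :=
            mul_le_mul hqm hb1 (abs_nonneg _) hqq0
          have m2 : 2 * (j : ℝ) * |th n| ≤ 2 * qq (n + 1) * |th n| := by
            apply mul_le_mul_of_nonneg_right _ ht0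
            linarith
          linarith
      _ ≤ 4 := by linarith
  have bβ : |(β : ℝ)| ≤ 4 := by
    have : (β : ℝ) = e * (-(qq (n + 1) * (h - 2 * j * ξ)) - 2 * j * th (n + 1)) := by
      rw [eβ]
      have := c.thd (n + 1)
      rw [this]; ring
    rw [this, abs_mul, heabs, one_mul]
    calc |-(qq (n + 1) * (h - 2 * j * ξ)) - 2 * j * th (n + 1)|
        ≤ |-(qq (n + 1) * ((h : ℝ) - 2 * j * ξ))| + |2 * j * th (n + 1)| := abs_sub _ _
      _ = qq (n + 1) * |(h : ℝ) - 2 * j * ξ| + 2 * j * |th (n + 1)| := by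
          rw [abs_neg, abs_mul, abs_mul, Nat.abs_cast,
            abs_of_nonneg (by positivity : (0 : ℝ) ≤ 2 * j)]
      _ ≤ qq (n + 1) * (2 * |th n|) + 2 * qq (n + 1) * |th n| := by
          have m1 : qq (n + 1) * |(h : ℝ) - 2 * j * ξ| ≤ qq (n + 1) * (2 * |th n|) :=
            mul_le_mul_of_nonneg_left hb1 hqq0
          have m2 : 2 * (j : ℝ) * |th (n + 1)| ≤ 2 * qq (n + 1) * |th n| := by
            apply mul_le_mul _ hdec ht1 (by positivity)
            linarith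
          linarith
      _ ≤ 4 := by linarith
  refine ⟨(α, β), ?_, k1, ?_, ?_⟩
  · unfold box
    rw [Finset.mem_product, Finset.mem_Icc, Finset.mem_Icc]
    have a1 := abs_le.1 bα
    have a2 := abs_le.1 bβ
    refine ⟨⟨?_, ?_⟩, ⟨?_, ?_⟩⟩
    · exact_mod_cast a1.1
    · exact_mod_cast a1.2
    · exact_mod_cast a2.1
    · exact_mod_cast a2.2
  · show 2 * x < (α : ℝ) * th (n + 1) + β * th n
    rw [k2]; linarith
  · show (α : ℝ) * th (n + 1) + β * th n ≤ 2 * y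
    rw [k2]; linarith

lemma T_cell {s : ℤ} {n : ℕ} {x y : ℝ} (hx : |x| ≤ |th n|) (hy : |y| ≤ |th n|)
    (h : cell th n x = cell th n y) {m : ℕ} (hm : m ≤ qq (n + 1)) : T s ξ x m = T s ξ y m := by
  wlog hxy : x ≤ y generalizing x y with H
  · exact (H hy hx h.symm (le_of_not_ge hxy)).symm
  unfold T
  apply Finset.sum_congr rfl
  intro j hj
  rw [Finset.mem_range] at hj
  by_contra hf
  have hf' : f s (x + ((j + 1 : ℕ) : ℝ) * ξ) ≠ f s (y + ((j + 1 : ℕ) : ℝ) * ξ) := by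
    push_cast; exact hf
  obtain ⟨p, hp, -, h1, h2⟩ := c.cut hx hy hxy (by omega) hf'
  have m1 : p ∈ cell th n x := (mem_cell n x p).2 ⟨hp, h1⟩
  rw [h, mem_cell] at m1
  linarith [m1.2]

lemma T_diff {s : ℤ} (hs : |s| = 1) {n : ℕ} {x y : ℝ} (hx : |x| ≤ |th n|) (hy : |y| ≤ |th n|)
    {m : ℕ} (hm : m ≤ qq (n + 1)) : |T s ξ x m - T s ξ y m| ≤ 162 := by
  classical
  wlog hxy : x ≤ y generalizing x y with H
  · rw [abs_sub_comm]; exact H hy hx (le_of_not_ge hxy)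
  unfold T
  rw [← Finset.sum_sub_distrib]
  have hq : ∀ j : ℕ, ((j : ℝ) + 1) = ((j + 1 : ℕ) : ℝ) := fun j => by push_cast; ring
  set D := (range m).filter (fun j : ℕ => f s (x + ((j : ℝ) + 1) * ξ) ≠ f s (y + ((j : ℝ) + 1) * ξ))
    with hD
  have hex : ∀ j ∈ D, ∃ p : ℤ × ℤ, p ∈ box ∧
      p.1 * qq (n + 1) + p.2 * qq n = -2 * ((j + 1 : ℕ) : ℤ) := by
    intro j hj
    rw [hD, Finset.mem_filter, Finset.mem_range, hq] at hj
    obtain ⟨p, hp, h1, -, -⟩ := c.cut hx hy hxy (by omega) hj.2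
    exact ⟨p, hp, h1⟩
  choose! g hg1 hg2 using hex
  have hcard : D.card ≤ 81 := by
    rw [← box_card]
    apply Finset.card_le_card_of_injOn g
    · intro j hj; exact hg1 j hj
    · intro i hi j hj hij
      have e1 := hg2 i hi
      have e2 := hg2 j hj
      have hij' : g i = g j := hij
      rw [hij', e2] at e1
      push_cast at e1
      omega
  calc |∑ j ∈ range m, (f s (x + ((j : ℝ) + 1) * ξ) - f s (y + ((j : ℝ) + 1) * ξ))|
      = |∑ j ∈ D, (f s (x + ((j : ℝ) + 1) * ξ) - f s (y + ((j : ℝ) + 1) * ξ))| := by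
        congr 1
        symm
        apply Finset.sum_filter_of_ne
        intro j _ hne
        intro h
        apply hne
        rw [h, sub_self]
    _ ≤ ∑ j ∈ D, |f s (x + ((j : ℝ) + 1) * ξ) - f s (y + ((j : ℝ) + 1) * ξ)| :=
        Finset.abs_sum_le_sum_abs _ _
    _ ≤ ∑ j ∈ D, 2 := by
        apply Finset.sum_le_sum
        intro j _
        have := abs_sub (f s (x + ((j : ℝ) + 1) * ξ)) (f s (y + ((j : ℝ) + 1) * ξ))
        rw [f_abs hs, f_abs hs] at this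
        linarith
    _ = 2 * D.card := by rw [Finset.sum_const]; simp [mul_comm]
    _ ≤ 162 := by
        have : (D.card : ℤ) ≤ 81 := by exact_mod_cast hcard
        linarith

lemma T_zero_block {s : ℤ} (hs : |s| = 1) (n : ℕ) : |T s ξ 0 (qq (n + 1) - 1)| ≤ 81 := by
  obtain ⟨N, hN⟩ : ∃ N, qq (n + 1) = N + 1 := ⟨qq (n + 1) - 1, by have := c.qq_pos n; omega⟩
  rw [hN, Nat.add_sub_cancel]
  have hrefl : T s ξ 0 N = - T s ξ (-th (n + 1)) N := by
    unfold T
    rw [← Finset.sum_range_reflect, ← Finset.sum_neg_distrib]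
    apply Finset.sum_congr rfl
    intro j hj
    rw [Finset.mem_range] at hj
    have hc : ((N - 1 - j : ℕ) : ℝ) = N - 1 - j := by
      rw [Nat.cast_sub (by omega), Nat.cast_sub (by omega)]; simp
    rw [hc]
    have hth := c.thd (n + 1)
    rw [hN] at hth
    push_cast at hth
    have e1 : (0 : ℝ) + ((N : ℝ) - 1 - j + 1) * ξ =
        -(-th (n + 1) + ((j : ℝ) + 1) * ξ) + ((pp (n + 1) : ℤ) : ℝ) := by
      rw [hth]; ring
    rw [e1, f_add_int, f_neg]
    intro k hk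
    have hne : ((N - j : ℕ) : ℤ) ≠ 0 := by omega
    have e2 : ((2 * ((N - j : ℕ) : ℤ) : ℤ) : ℝ) * ξ = ((2 * pp (n + 1) - k : ℤ) : ℝ) := by
      push_cast
      rw [Nat.cast_sub hj.le, ← hk, hth]
      ring
    have hirr := c.irr
    have : Irrational (((2 * ((N - j : ℕ) : ℤ) : ℤ) : ℝ) * ξ) := by
      apply hirr.intCast_mul
      omega
    rw [e2] at this
    exact this.ne_int _ rfl
  have hw : |(-th (n + 1))| ≤ |th n| := by rw [abs_neg]; exact (c.dec n).le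
  have h0 : |(0 : ℝ)| ≤ |th n| := by rw [abs_zero]; exact abs_nonneg _
  have hd := c.T_diff hs h0 hw (m := N) (by omega)
  rw [hrefl] at hd ⊢
  have := abs_le.1 hd
  rw [abs_le]
  constructor <;> linarith

lemma T_block_bound {s : ℤ} (hs : |s| = 1) {n : ℕ} {x : ℝ} (hx : |x| ≤ |th n|) :
    |T s ξ x (qq (n + 1))| ≤ 244 := by
  obtain ⟨N, hN⟩ : ∃ N, qq (n + 1) = N + 1 := ⟨qq (n + 1) - 1, by have := c.qq_pos n; omega⟩
  have h1 := c.T_zero_block hs n
  have h0 : |(0 : ℝ)| ≤ |th n| := by rw [abs_zero]; exact abs_nonneg _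
  have h2 := c.T_diff hs hx h0 (le_refl (qq (n + 1)))
  rw [hN, Nat.add_sub_cancel] at h1
  rw [hN, T_succ s ξ 0] at h2
  rw [hN]
  have h3 := f_abs hs ((0 : ℝ) + ((N : ℝ) + 1) * ξ)
  have a1 := abs_le.1 h1
  have a2 := abs_le.1 h2
  have a3 := abs_le.1 h3.le
  rw [abs_le]
  constructor <;> linarith

end CF

end Pool.Agent.Q67.OR
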