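import Mathlib

/-!
Records of the deterministic random walk `S_n(2ξ)` and Ostrowski numeration: definitions.
-/

set_option autoImplicit false

namespace Pool.Agent.Q67.OR

/-- complete quotients of `ξ`: `cq ξ 0 = ξ`, `cq ξ (n+1) = 1 / (fractional part of cq ξ n)` -/
noncomputable def cq (ξ : ℝ) : ℕ → ℝ
  | 0 => ξ
  | n + 1 => 1 / Int.fract (cq ξ n)

/-- partial quotients `a_n` -/
noncomputable def pq (ξ : ℝ) (n : ℕ) : ℕ := ⌊cq ξ n⌋₊

/-- denominators `q_n`: `q_0 = 1`, `q_1 = a_1`, `q_(n+2) = a_(n+2) q_(n+1) + q_n` -/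
noncomputable def den (ξ : ℝ) : ℕ → ℕ
  | 0 => 1
  | 1 => pq ξ 1
  | n + 2 => pq ξ (n + 2) * den ξ (n + 1) + den ξ n

/-- `S_n(x) = ∑_{j=1}^n (-1)^⌊j x⌋` -/
noncomputable def walk (x : ℝ) (n : ℕ) : ℤ :=
  ∑ j ∈ Finset.Icc 1 n, if Even ⌊(j : ℝ) * x⌋ then 1 else -1

/-- `r` is a record of `S(x)` -/
def IsRecord (x : ℝ) (r : ℕ) : Prop := ∀ n < r, walk x r ≠ walk x n

/-- digit number `i` (counted from the least significant one) of a word written with the most
significant digit first; `0` beyond its length -/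
def digit (w : List ℕ) (i : ℕ) : ℕ := w.reverse.getD i 0

/-- `w` is the `ξ`-Ostrowski representation of `N`, most significant digit first -/
structure IsRep (ξ : ℝ) (w : List ℕ) (N : ℕ) : Prop where
  lead : w.head? ≠ some 0
  low : digit w 0 < pq ξ 1
  le : ∀ i, 1 ≤ i → digit w i ≤ pq ξ (i + 1)
  carry : ∀ i, 1 ≤ i → digit w i = pq ξ (i + 1) → digit w (i - 1) = 0
  sum : N = ∑ i ∈ Finset.range w.length, digit w i * den ξ i

/-- continued fraction data, all indices shifted by one: `A n = a_(n+1)`, `qq n = q_(n-1)`,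
`pp n = p_(n-1)`, `th n = q_(n-1) ξ - p_(n-1)` -/
structure CF (ξ : ℝ) (A qq : ℕ → ℕ) (pp : ℕ → ℤ) (th : ℕ → ℝ) : Prop where
  irr : Irrational ξ
  Apos : ∀ n, 1 ≤ A n
  qq0 : qq 0 = 0
  qq1 : qq 1 = 1
  qqs : ∀ n, qq (n + 2) = A n * qq (n + 1) + qq n
  thd : ∀ n, th n = qq n * ξ - pp n
  th0 : th 0 = -1
  ths : ∀ n, th (n + 2) = A n * th (n + 1) + th n
  alt : ∀ n, th (n + 1) * th n < 0
  dec : ∀ n, |th (n + 1)| < |th n|

/-- the step function, with a sign `s` -/
noncomputable def f (s : ℤ) (y : ℝ) : ℤ := if Even ⌊2 * y⌋ then s else -s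

/-- the sum of `m` steps starting from `x` -/
noncomputable def T (s : ℤ) (ξ x : ℝ) (m : ℕ) : ℤ := ∑ j ∈ Finset.range m, f s (x + (j + 1) * ξ)

/-- all partial sums over the block of length `q` stay below `z` -/
def B (s : ℤ) (ξ : ℝ) (q : ℕ) (x : ℝ) (z : ℤ) : Prop := ∀ m < q, T s ξ x m < z

/-- number with digit list `d` (least significant first), lowest digit in position `i` -/
def val (qq : ℕ → ℕ) : ℕ → List ℕ → ℕ
  | _, [] => 0
  | i, b :: d => b * qq (i + 1) + val qq (i + 1) d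

/-- the point of the rotation belonging to the number `val` -/
noncomputable def pos (th : ℕ → ℝ) : ℕ → List ℕ → ℝ
  | _, [] => 0
  | i, b :: d => b * th (i + 1) + pos th (i + 1) d

/-- admissibility of the digits -/
def ok (A : ℕ → ℕ) : ℕ → List ℕ → Prop
  | _, [] => True
  | i, b :: d => b ≤ A i ∧ (d.head? = some (A (i + 1)) → b = 0) ∧ ok A (i + 1) d

/-- all earlier values of the walk are below the value at `val i d` plus `z` -/
def K (s : ℤ) (ξ : ℝ) (qq : ℕ → ℕ) (i : ℕ) (d : List ℕ) (z : ℤ) : Prop :=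
  ∀ n < val qq i d, T s ξ 0 n < T s ξ 0 (val qq i d) + z

end Pool.Agent.Q67.OR
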