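import Pool.Agent.Q67.OR.Pig

set_option autoImplicit false

namespace Pool.Agent.Q67.OR

open Finset

variable {ξ : ℝ} {A qq : ℕ → ℕ} {pp : ℕ → ℤ} {th : ℕ → ℝ}

lemma K_mono {s : ℤ} {ξ : ℝ} {qq : ℕ → ℕ} {i : ℕ} {d : List ℕ} {z z' : ℤ} (h : z ≤ z')
    (hK : K s ξ qq i d z) : K s ξ qq i d z' := fun n hn => by
  have := hK n hn
  linarith

namespace CF

variable (c : CF ξ A qq pp th)
include c

lemma pos_val (i : ℕ) (d : List ℕ) : ∃ k : ℤ, pos th i d = (0 + (val qq i d : ℝ) * ξ) + k := by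
  induction d generalizing i with
  | nil => exact ⟨0, by simp [pos, val]⟩
  | cons b d ih =>
    obtain ⟨k, hk⟩ := ih (i + 1)
    refine ⟨k - b * pp (i + 1), ?_⟩
    simp only [pos, val]
    rw [hk, c.thd]
    push_cast
    ring

lemma T_val (s : ℤ) (i : ℕ) (d : List ℕ) (m : ℕ) :
    T s ξ 0 (val qq i d + m) = T s ξ 0 (val qq i d) + T s ξ (pos th i d) m := by
  rw [T_add]
  congr 1
  exact (T_congr s ξ _ _ (c.pos_val i d) m).symm

lemma T_blocks0 (s : ℤ) (x : ℝ) (n k : ℕ) :
    T s ξ x (k * qq n) = ∑ l ∈ range k, T s ξ (x + l * th n) (qq n) := by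
  have := c.T_blocks s x n k 0
  rw [add_zero, T_zero, add_zero] at this
  exact this

lemma K_cons (s : ℤ) (i b : ℕ) (d : List ℕ) (z : ℤ) : K s ξ qq i (b :: d) z ↔
    K s ξ qq (i + 1) d (z + ∑ l ∈ range b, T s ξ (pos th (i + 1) d + l * th (i + 1)) (qq (i + 1))) ∧
    ∀ k < b, B s ξ (qq (i + 1)) (pos th (i + 1) d + k * th (i + 1))
      (z + ∑ l ∈ range b, T s ξ (pos th (i + 1) d + l * th (i + 1)) (qq (i + 1)) -
        ∑ l ∈ range k, T s ξ (pos th (i + 1) d + l * th (i + 1)) (qq (i + 1))) := by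
  have hv : val qq i (b :: d) = val qq (i + 1) d + b * qq (i + 1) := by simp only [val]; ring
  have hT : T s ξ 0 (val qq i (b :: d)) = T s ξ 0 (val qq (i + 1) d) +
      ∑ l ∈ range b, T s ξ (pos th (i + 1) d + l * th (i + 1)) (qq (i + 1)) := by
    rw [hv, c.T_val, c.T_blocks0]
  have hT2 : ∀ k m : ℕ, T s ξ 0 (val qq (i + 1) d + (k * qq (i + 1) + m)) =
      T s ξ 0 (val qq (i + 1) d) +
      (∑ l ∈ range k, T s ξ (pos th (i + 1) d + l * th (i + 1)) (qq (i + 1)) +
      T s ξ (pos th (i + 1) d + k * th (i + 1)) m) := by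
    intro k m
    rw [c.T_val, c.T_blocks]
  have hq := c.qq_pos i
  constructor
  · intro h
    refine ⟨fun n hn => ?_, fun k hk m hm => ?_⟩
    · have := h n (by rw [hv]; omega)
      rw [hT] at this
      linarith
    · have := h (val qq (i + 1) d + (k * qq (i + 1) + m)) (by rw [hv]; nlinarith)
      rw [hT, hT2] at this
      linarith
  · rintro ⟨h1, h2⟩ n hn
    rw [hT]
    by_cases hn2 : n < val qq (i + 1) d
    · have := h1 n hn2
      linarith
    · obtain ⟨n', rfl⟩ : ∃ n', n = val qq (i + 1) d + n' := ⟨n - val qq (i + 1) d, by omega⟩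
      rw [hv] at hn
      have hn' : n' < b * qq (i + 1) := by omega
      have hk : n' / qq (i + 1) < b := Nat.div_lt_of_lt_mul (by rw [mul_comm]; exact hn')
      have := h2 _ hk (n' % qq (i + 1)) (Nat.mod_lt _ (by omega))
      have e : n' / qq (i + 1) * qq (i + 1) + n' % qq (i + 1) = n' := Nat.div_add_mod' n' _
      rw [← e, hT2]
      linarith

lemma rec_iff (s : ℤ) (i : ℕ) (d : List ℕ) (m : ℕ) :
    (∀ n < val qq i d + m, T s ξ 0 n < T s ξ 0 (val qq i d + m)) ↔
    (∀ m' < m, T s ξ (pos th i d) m' < T s ξ (pos th i d) m) ∧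
      K s ξ qq i d (T s ξ (pos th i d) m) := by
  rw [c.T_val]
  constructor
  · intro h
    refine ⟨fun m' hm' => ?_, fun n hn => ?_⟩
    · have := h (val qq i d + m') (by omega)
      rw [c.T_val] at this
      linarith
    · exact h n (by omega)
  · rintro ⟨h1, h2⟩ n hn
    by_cases hn2 : n < val qq i d
    · exact h2 n hn2
    · obtain ⟨n', rfl⟩ : ∃ n', n = val qq i d + n' := ⟨n - val qq i d, by omega⟩
      rw [c.T_val]
      have := h1 n' (by omega)
      linarith

lemma K_low (hwin : ∀ (d : List ℕ) (i : ℕ), ok A i d → |pos th i d| ≤ |th i|)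
    {s : ℤ} (hs : |s| = 1) (d : List ℕ) (i : ℕ) (z : ℤ) (hd : ok A i d) (hv : 0 < val qq i d)
    (hK : K s ξ qq i d z) : Mx s ξ (qq (i + 1)) 0 - 406 < z := by
  induction d generalizing i z with
  | nil => simp [val] at hv
  | cons b d ih =>
    rw [c.K_cons] at hK
    obtain ⟨h1, h2⟩ := hK
    rcases Nat.eq_zero_or_pos b with hb | hb
    · subst hb
      simp only [Finset.range_zero, Finset.sum_empty, add_zero] at h1
      have hv' : 0 < val qq (i + 1) d := by simpa [val] using hv
      have := ih (i + 1) z hd.2.2 hv' h1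
      have hm := c.Mx_mono s (Nat.le_succ i) 0
      have e : i.succ + 1 = i + 1 + 1 := rfl
      rw [e] at hm
      linarith
    · obtain ⟨k, rfl⟩ : ∃ k, b = k + 1 := ⟨b - 1, by omega⟩
      have h3 := h2 k (by omega)
      have hw0 := hwin d (i + 1) hd.2.2
      have hkA : k < A i := by have := hd.1; omega
      have hw := c.win1 i _ k hw0 hkA
      have hp := c.qq_pos i
      rw [B_iff s ξ (by omega), Finset.sum_range_succ] at h3
      have h4 := (abs_le.1 (c.T_block_bound hs hw)).2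
      have h0 : |(0 : ℝ)| ≤ |th i| := by rw [abs_zero]; exact abs_nonneg _
      have h5 := (abs_le.1 (c.Mx_diff hs h0 hw (by omega : 0 < qq (i + 1)) le_rfl)).2
      linarith

end CF

section shift

variable {n1 L : ℕ} {ρ : ℝ} {e : ℤ} {s : ℤ}

lemma pos_shift (ht : ∀ n, n1 ≤ n → th (n + L) = ρ * th n) (d : List ℕ) (i : ℕ) (hi : n1 ≤ i) :
    pos th (i + L) d = ρ * pos th i d := by
  induction d generalizing i with
  | nil => simp [pos]
  | cons b d ih =>
    simp only [pos]
    have e1 : i + L + 1 = i + 1 + L := by ring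
    rw [e1, ih (i + 1) (by omega), ht (i + 1) (by omega)]
    ring

lemma ok_shift (hA : ∀ n, n1 ≤ n → A (n + L) = A n) (d : List ℕ) (i : ℕ) (hi : n1 ≤ i) :
    ok A (i + L) d ↔ ok A i d := by
  induction d generalizing i with
  | nil => simp [ok]
  | cons b d ih =>
    simp only [ok]
    have e1 : i + L + 1 = i + 1 + L := by ring
    rw [e1, ih (i + 1) (by omega), hA (i + 1) (by omega), hA i hi]

lemma val_zero_iff (c : CF ξ A qq pp th) (d : List ℕ) (i : ℕ) :
    val qq i d = 0 ↔ ∀ b ∈ d, b = 0 := by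
  induction d generalizing i with
  | nil => simp [val]
  | cons b d ih =>
    simp only [val]
    have hp := c.qq_pos i
    rw [Nat.add_eq_zero_iff, ih (i + 1), Nat.mul_eq_zero]
    constructor
    · rintro ⟨h1, h2⟩ x hx
      rcases List.mem_cons.1 hx with h | h
      · rcases h1 with h1 | h1
        · rw [h, h1]
        · omega
      · exact h2 x h
    · intro h
      exact ⟨Or.inl (h b (by simp)), fun x hx => h x (by simp [hx])⟩

lemma K_shift (c : CF ξ A qq pp th)
    (hwin : ∀ (d : List ℕ) (i : ℕ), ok A i d → |pos th i d| ≤ |th i|)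
    (ht : ∀ n, n1 ≤ n → th (n + L) = ρ * th n)
    (hS : ∀ n, n1 ≤ n → Sim s ξ qq th n L ρ e) (d : List ℕ) (i : ℕ) (hi : n1 ≤ i)
    (hd : ok A i d) (z : ℤ) : K s ξ qq (i + L) d (z + e) ↔ K s ξ qq i d z := by
  induction d generalizing i z with
  | nil => simp [K, val]
  | cons b d ih =>
    have hw0 := hwin d (i + 1) hd.2.2
    have e1 : i + L + 1 = i + 1 + L := by ring
    have hx : ∀ k : ℕ, k < b → |pos th (i + 1) d + k * th (i + 1)| ≤ |th i| := fun k hk =>
      c.win1 i _ k hw0 (lt_of_lt_of_le hk hd.1)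
    have hps : pos th (i + L + 1) d = ρ * pos th (i + 1) d := by
      rw [e1]; exact pos_shift ht d (i + 1) (by omega)
    have hts : th (i + L + 1) = ρ * th (i + 1) := by rw [e1]; exact ht (i + 1) (by omega)
    have hpt : ∀ k : ℕ, pos th (i + L + 1) d + (k : ℝ) * th (i + L + 1) =
        ρ * (pos th (i + 1) d + k * th (i + 1)) := by
      intro k; rw [hps, hts]; ring
    have hF : ∀ k : ℕ, k ≤ b → ∑ l ∈ range k, T s ξ (pos th (i + L + 1) d + l * th (i + L + 1))
        (qq (i + L + 1)) =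
        ∑ l ∈ range k, T s ξ (pos th (i + 1) d + l * th (i + 1)) (qq (i + 1)) := by
      intro k hk
      apply Finset.sum_congr rfl
      intro l hl
      rw [Finset.mem_range] at hl
      rw [hpt]
      exact (hS i hi _ (hx l (by omega))).1
    rw [c.K_cons, c.K_cons, hF b le_rfl]
    apply and_congr
    · have h1 := ih (i + 1) (by omega) hd.2.2
        (z + ∑ l ∈ range b, T s ξ (pos th (i + 1) d + l * th (i + 1)) (qq (i + 1)))
      rw [← h1, ← e1]
      have e2 : z + e + ∑ l ∈ range b, T s ξ (pos th (i + 1) d + l * th (i + 1)) (qq (i + 1)) =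
        z + ∑ l ∈ range b, T s ξ (pos th (i + 1) d + l * th (i + 1)) (qq (i + 1)) + e := by ring
      rw [e2]
    · apply forall_congr'
      intro k
      apply forall_congr'
      intro hk
      rw [hF k hk.le, hpt]
      have h2 := (hS i hi _ (hx k hk)).2
        (z + ∑ l ∈ range b, T s ξ (pos th (i + 1) d + l * th (i + 1)) (qq (i + 1)) -
          ∑ l ∈ range k, T s ξ (pos th (i + 1) d + l * th (i + 1)) (qq (i + 1)))
      rw [← h2]
      have e2 : z + e + ∑ l ∈ range b, T s ξ (pos th (i + 1) d + l * th (i + 1)) (qq (i + 1)) -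
          ∑ l ∈ range k, T s ξ (pos th (i + 1) d + l * th (i + 1)) (qq (i + 1)) =
        z + ∑ l ∈ range b, T s ξ (pos th (i + 1) d + l * th (i + 1)) (qq (i + 1)) -
          ∑ l ∈ range k, T s ξ (pos th (i + 1) d + l * th (i + 1)) (qq (i + 1)) + e := by ring
      rw [e2]

end shift

end Pool.Agent.Q67.OR
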