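import Pool.Agent.Q67.OR.Asm
import Pool.Agent.Q129.OR.LAG
import Pool.Agent.Q130.OR.REC

set_option autoImplicit false

namespace Pool.Agent.Q67.OR

open Finset

/-- denominators, shifted -/
noncomputable def qf (ξ : ℝ) : ℕ → ℕ
  | 0 => 0
  | 1 => 1
  | n + 2 => pq ξ (n + 1) * qf ξ (n + 1) + qf ξ n

/-- numerators, shifted -/
noncomputable def pf (ξ : ℝ) : ℕ → ℤ
  | 0 => 1
  | 1 => ⌊ξ⌋
  | n + 2 => pq ξ (n + 1) * pf ξ (n + 1) + pf ξ n

/-- errors -/
noncomputable def tf (ξ : ℝ) (n : ℕ) : ℝ := qf ξ n * ξ - pf ξ n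

lemma den_eq (ξ : ℝ) (n : ℕ) : den ξ n = qf ξ (n + 1) := by
  induction n using Nat.strong_induction_on with
  | _ n ih =>
    match n with
    | 0 => simp [den, qf]
    | 1 => simp [den, qf]
    | n + 2 =>
      rw [den, ih (n + 1) (by omega), ih n (by omega)]
      rfl

section

variable {ξ : ℝ} (hirr : Irrational ξ)
include hirr

lemma cq_irr (n : ℕ) : Irrational (cq ξ n) := by
  induction n with
  | zero => exact hirr
  | succ n ih =>
    have h : Irrational (Int.fract (cq ξ n)) := by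
      rw [Int.fract]; exact ih.sub_intCast _
    rw [cq, one_div]
    exact irrational_inv_iff.2 h

lemma x_irr (n : ℕ) : Irrational (Int.fract (cq ξ n)) := by
  rw [Int.fract]; exact (cq_irr hirr n).sub_intCast _

lemma x_pos (n : ℕ) : 0 < Int.fract (cq ξ n) :=
  lt_of_le_of_ne (Int.fract_nonneg _) (fun h => (x_irr hirr n).ne_zero h.symm)

lemma x_lt (n : ℕ) : Int.fract (cq ξ n) < 1 := Int.fract_lt_one _

lemma cq_gt (n : ℕ) : 1 < cq ξ (n + 1) := by
  rw [cq]
  rw [lt_div_iff₀ (x_pos hirr n), one_mul]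
  exact x_lt hirr n

lemma A_pos (n : ℕ) : 1 ≤ pq ξ (n + 1) := by
  unfold pq
  rw [Nat.one_le_floor_iff]
  exact (cq_gt hirr n).le

lemma x_succ (n : ℕ) : Int.fract (cq ξ (n + 1)) = 1 / Int.fract (cq ξ n) - pq ξ (n + 1) := by
  have h1 : (0 : ℝ) ≤ cq ξ (n + 1) := by have := cq_gt hirr n; linarith
  have h2 : ((pq ξ (n + 1) : ℕ) : ℝ) = ((⌊cq ξ (n + 1)⌋ : ℤ) : ℝ) := by
    unfold pq
    exact natCast_floor_eq_intCast_floor h1
  rw [h2]
  have h3 : 1 / Int.fract (cq ξ n) = cq ξ (n + 1) := rfl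
  rw [h3, Int.fract]

lemma tf_succ (n : ℕ) : tf ξ (n + 1) = - Int.fract (cq ξ n) * tf ξ n := by
  induction n with
  | zero =>
    simp only [tf, qf, pf, cq]
    push_cast
    rw [Int.fract]
    ring
  | succ n ih =>
    have hs : tf ξ (n + 2) = pq ξ (n + 1) * tf ξ (n + 1) + tf ξ n := by
      simp only [tf, qf, pf]
      push_cast
      ring
    have hx := (x_pos hirr n).ne'
    rw [x_succ hirr n, hs]
    have h2 : tf ξ n = - tf ξ (n + 1) / Int.fract (cq ξ n) := by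
      rw [ih]; field_simp
    rw [h2]
    field_simp
    ring

lemma tf_ne (n : ℕ) : tf ξ n ≠ 0 := by
  induction n with
  | zero => simp [tf, qf, pf]
  | succ n ih =>
    rw [tf_succ hirr]
    exact mul_ne_zero (neg_ne_zero.2 (x_pos hirr n).ne') ih

theorem cf : CF ξ (fun n => pq ξ (n + 1)) (qf ξ) (pf ξ) (tf ξ) where
  irr := hirr
  Apos := A_pos hirr
  qq0 := rfl
  qq1 := rfl
  qqs := fun _ => rfl
  thd := fun _ => rfl
  th0 := by simp [tf, qf, pf]
  ths := fun n => by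
    simp only [tf, qf, pf]
    push_cast
    ring
  alt := fun n => by
    rw [tf_succ hirr]
    have h1 := x_pos hirr n
    have h2 : 0 < tf ξ n * tf ξ n := mul_self_pos.2 (tf_ne hirr n)
    nlinarith
  dec := fun n => by
    rw [tf_succ hirr, abs_mul, abs_neg, abs_of_pos (x_pos hirr n)]
    have h1 := x_lt hirr n
    have h2 : 0 < |tf ξ n| := abs_pos.2 (tf_ne hirr n)
    nlinarith

end

lemma walk_succ (x : ℝ) (n : ℕ) :
    walk x (n + 1) = walk x n + if Even ⌊((n + 1 : ℕ) : ℝ) * x⌋ then 1 else -1 := by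
  unfold walk
  rw [Finset.sum_Icc_succ_top (by omega)]

lemma T_walk (ξ : ℝ) (n : ℕ) : T 1 ξ 0 n = walk (2 * ξ) n := by
  induction n with
  | zero => simp [T, walk]
  | succ n ih =>
    rw [T_succ, walk_succ, ih]
    congr 1
    unfold f
    have : 2 * ((0 : ℝ) + ((n : ℝ) + 1) * ξ) = ((n + 1 : ℕ) : ℝ) * (2 * ξ) := by push_cast; ring
    rw [this]

lemma T_neg (ξ x : ℝ) (n : ℕ) : T (-1) ξ x n = - T 1 ξ x n := by
  unfold T
  rw [← Finset.sum_neg_distrib]
  apply Finset.sum_congr rfl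
  intro j _
  unfold f
  split_ifs <;> simp

lemma record_iff (ξ : ℝ) (N : ℕ) : IsRecord (2 * ξ) N ↔
    (∀ n < N, T 1 ξ 0 n < T 1 ξ 0 N) ∨ (∀ n < N, T (-1) ξ 0 n < T (-1) ξ 0 N) := by
  unfold IsRecord
  rw [Pool.Agent.Q130.OR.t_REC (walk (2 * ξ)) (fun n => by
    rw [walk_succ]
    split_ifs
    · exact Or.inl rfl
    · exact Or.inr rfl)]
  simp only [T_neg, T_walk, neg_lt_neg_iff]
  constructor
  · rintro (h | h | h)
    · left; intro n hn; omega
    · exact Or.inl h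
    · exact Or.inr h
  · rintro (h | h)
    · exact Or.inr (Or.inl h)
    · exact Or.inr (Or.inr h)

lemma rep_iff {ξ : ℝ} (hirr : Irrational ξ) {b : ℕ} (w : List (Fin (b + 1))) (N : ℕ) :
    IsRep ξ (w.map Fin.val) N ↔ w.head? ≠ some 0 ∧ (dig w).getD 0 0 < pq ξ 1 ∧
      ok (fun n => pq ξ (n + 1)) 0 (dig w) ∧ N = val (qf ξ) 0 (dig w) := by
  have hd : ∀ i, digit (w.map Fin.val) i = (dig w).getD i 0 := fun i => rfl
  have hlead : (w.map Fin.val).head? ≠ some 0 ↔ w.head? ≠ some 0 := by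
    cases w with
    | nil => simp
    | cons x l =>
      simp only [List.map_cons, List.head?_cons, ne_eq, Option.some.injEq]
      rw [not_iff_not]
      exact ⟨fun h => Fin.ext (by simpa using h), fun h => by rw [h]; rfl⟩
  have hsum : ∑ i ∈ range (w.map Fin.val).length,
      digit (w.map Fin.val) i * den ξ i = val (qf ξ) 0 (dig w) := by
    rw [val_getD, dig_length, List.length_map]
    apply Finset.sum_congr rfl
    intro i _
    rw [hd, den_eq, zero_add]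
  rw [ok_getD _ (A_pos hirr)]
  constructor
  · intro h
    refine ⟨hlead.1 h.lead, h.low, ⟨fun l => ?_, fun l hl => ?_⟩, ?_⟩
    · rcases Nat.eq_zero_or_pos l with hl | hl
      · subst hl
        have := h.low
        rw [hd] at this
        simpa using this.le
      · have := h.le l hl
        rw [hd] at this
        simpa using this
    · have := h.carry (l + 1) (by omega)
      rw [hd, Nat.add_sub_cancel, hd] at this
      apply this
      rw [hl]
      simp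
    · rw [h.sum, hsum]
  · rintro ⟨h1, h2, ⟨h3, h4⟩, h5⟩
    refine ⟨hlead.2 h1, h2, fun i _ => ?_, fun i hi h => ?_, ?_⟩
    · rw [hd]
      simpa using h3 i
    · obtain ⟨l, rfl⟩ : ∃ l, i = l + 1 := ⟨i - 1, by omega⟩
      rw [Nat.add_sub_cancel, hd]
      apply h4 l
      rw [hd] at h
      rw [h]
      simp
    · rw [h5, hsum]

theorem main (ξ : ℝ) (hirr : Irrational ξ)
    (hq : ∃ a b c : ℤ, a ≠ 0 ∧ (a : ℝ) * ξ ^ 2 + b * ξ + c = 0) :
    ∃ K : ℕ, (∀ n, 1 ≤ n → pq ξ n ≤ K) ∧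
      ∃ (σ : Type) (_ : Fintype σ) (M : DFA (Fin (K + 1)) σ), ∀ w : List (Fin (K + 1)),
        w ∈ M.accepts ↔
          ∃ N, IsRep ξ (w.map Fin.val) N ∧ IsRecord (2 * ξ) N := by
  obtain ⟨a, b, c, ha, h0⟩ := hq
  obtain ⟨n0, P, hP, hper⟩ := Pool.Agent.Q129.OR.t_LAG ξ hirr a b c ha h0
  have C := cf hirr
  have hApq : ∀ n, n0 ≤ n → pq ξ (n + P) = pq ξ n := fun n hn => by
    unfold pq; rw [hper n hn]
  have hA : ∀ n, n0 ≤ n → (fun n => pq ξ (n + 1)) (n + P) = (fun n => pq ξ (n + 1)) n :=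
    fun n hn => by
      show pq ξ (n + P + 1) = pq ξ (n + 1)
      have e : n + P + 1 = n + 1 + P := by ring
      rw [e]; exact hApq (n + 1) (by omega)
  set r : ℝ := tf ξ (n0 + P) / tf ξ n0 with hr
  have hr0 : r ≠ 0 := div_ne_zero (tf_ne hirr _) (tf_ne hirr _)
  have ht : ∀ n, n0 ≤ n → tf ξ (n + P) = r * tf ξ n := by
    intro n hn
    obtain ⟨k, rfl⟩ : ∃ k, n = n0 + k := ⟨n - n0, by omega⟩
    clear hn
    induction k with
    | zero =>
      rw [add_zero, hr]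
      field_simp [tf_ne hirr n0]
    | succ k ih =>
      have e : n0 + (k + 1) + P = (n0 + k + P) + 1 := by ring
      have e2 : n0 + (k + 1) = (n0 + k) + 1 := by ring
      rw [e, e2, tf_succ hirr, tf_succ hirr, ih, hper (n0 + k) (by omega)]
      ring
  have hA2 : ∀ n, n0 ≤ n → (fun n => pq ξ (n + 1)) (n + 2 * P) = (fun n => pq ξ (n + 1)) n :=
    fun n hn => iter_A (A := fun n => pq ξ (n + 1)) hA 2 n hn
  have ht2 : ∀ n, n0 ≤ n → tf ξ (n + 2 * P) = r ^ 2 * tf ξ n := fun n hn => iter_th ht 2 n hn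
  have hr2 : 0 < r ^ 2 := by positivity
  -- bound of the partial quotients
  obtain ⟨K, hK⟩ : ∃ K : ℕ, ∀ n, pq ξ n ≤ K := by
    refine ⟨(range (n0 + P)).sup (pq ξ), fun n => ?_⟩
    induction n using Nat.strong_induction_on with
    | _ n ih =>
      by_cases hn : n < n0 + P
      · exact Finset.le_sup (f := pq ξ) (Finset.mem_range.2 hn)
      · obtain ⟨m, rfl⟩ : ∃ m, n = m + P := ⟨n - P, by omega⟩
        rw [hApq m (by omega)]
        exact ih m (by omega)
  refine ⟨K, fun n _ => hK n, ?_⟩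
  have R1 : (Lg 1 ξ (fun n => pq ξ (n + 1)) (qf ξ) K).IsRegular :=
    Lg_regular C (by norm_num) (by omega : 0 < 2 * P) hr2 hA2 ht2 K
  have R2 : (Lg (-1) ξ (fun n => pq ξ (n + 1)) (qf ξ) K).IsRegular :=
    Lg_regular C (by norm_num) (by omega : 0 < 2 * P) hr2 hA2 ht2 K
  obtain ⟨σ, hσ, M, hM⟩ := R1.add R2
  refine ⟨σ, hσ, M, fun w => ?_⟩
  rw [hM, Language.mem_add]
  simp only [rep_iff hirr, record_iff]
  constructor
  · rintro (⟨h1, h2, h3, h4⟩ | ⟨h1, h2, h3, h4⟩)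
    · exact ⟨_, ⟨h1, h2, h3, rfl⟩, Or.inl h4⟩
    · exact ⟨_, ⟨h1, h2, h3, rfl⟩, Or.inr h4⟩
  · rintro ⟨N, ⟨h1, h2, h3, rfl⟩, h4 | h4⟩
    · exact Or.inl ⟨h1, h2, h3, h4⟩
    · exact Or.inr ⟨h1, h2, h3, h4⟩

end Pool.Agent.Q67.OR
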