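import Pool.Agent.Q67.OR.Ren

set_option autoImplicit false

namespace Pool.Agent.Q67.OR

open Finset

variable {ξ : ℝ} {A qq : ℕ → ℕ} {pp : ℕ → ℤ} {th : ℕ → ℝ}

lemma cell_scale {n L : ℕ} {ρ : ℝ} (hρ : 0 < ρ) (h0 : th (n + L) = ρ * th n)
    (h1 : th (n + 1 + L) = ρ * th (n + 1)) (x : ℝ) :
    cell th (n + L) (ρ * x) = cell th n x := by
  ext p
  rw [mem_cell, mem_cell]
  have e : n + L + 1 = n + 1 + L := by ring
  rw [e, h0, h1]
  apply and_congr_right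
  intro _
  have e2 : (p.1 : ℝ) * (ρ * th (n + 1)) + p.2 * (ρ * th n) =
    ρ * (p.1 * th (n + 1) + p.2 * th n) := by ring
  have e3 : 2 * (ρ * x) = ρ * (2 * x) := by ring
  rw [e2, e3]
  exact mul_lt_mul_iff_right₀ hρ

/-- data of block `n` -/
def dat (s : ℤ) (ξ : ℝ) (qq : ℕ → ℕ) (th : ℕ → ℝ) (n : ℕ) : Set (Finset (ℤ × ℤ) × ℤ × ℤ) :=
  {t | ∃ x, |x| ≤ |th n| ∧ t = (cell th n x, T s ξ x (qq (n + 1)),
    Mx s ξ (qq (n + 1)) x - Mx s ξ (qq (n + 1)) 0)}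

/-- bounded data -/
def W : Set (Finset (ℤ × ℤ) × ℤ × ℤ) :=
  {t | t.1 ∈ box.powerset ∧ t.2.1 ∈ Set.Icc (-244 : ℤ) 244 ∧ t.2.2 ∈ Set.Icc (-162 : ℤ) 162}

lemma W_finite : W.Finite := by
  have h : W ⊆ (box.powerset : Set (Finset (ℤ × ℤ))) ×ˢ
      (Set.Icc (-244 : ℤ) 244 ×ˢ Set.Icc (-162 : ℤ) 162) := by
    rintro ⟨a, b, d⟩ ⟨h1, h2, h3⟩
    exact ⟨h1, h2, h3⟩
  exact Set.Finite.subset ((Finset.finite_toSet _).prod
    ((Set.finite_Icc _ _).prod (Set.finite_Icc _ _))) h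

namespace CF

variable (c : CF ξ A qq pp th)
include c

lemma dat_sub {s : ℤ} (hs : |s| = 1) (n : ℕ) : dat s ξ qq th n ⊆ W := by
  rintro t ⟨x, hx, rfl⟩
  have h0 : |(0 : ℝ)| ≤ |th n| := by rw [abs_zero]; exact abs_nonneg _
  have hp := c.qq_pos n
  refine ⟨cell_sub n x, abs_le.1 (c.T_block_bound hs hx), ?_⟩
  exact abs_le.1 (c.Mx_diff hs hx h0 (by omega) le_rfl)

/-- equal data give the scaling relation -/
lemma sim_of_dat {s : ℤ} {n L : ℕ} {ρ : ℝ} (hρ : 0 < ρ) (h0 : th (n + L) = ρ * th n)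
    (h1 : th (n + 1 + L) = ρ * th (n + 1))
    (hd : dat s ξ qq th n = dat s ξ qq th (n + L)) :
    Sim s ξ qq th n L ρ (Mx s ξ (qq (n + L + 1)) 0 - Mx s ξ (qq (n + 1)) 0) := by
  intro x hx
  have hmem : (cell th n x, T s ξ x (qq (n + 1)),
    Mx s ξ (qq (n + 1)) x - Mx s ξ (qq (n + 1)) 0) ∈ dat s ξ qq th n := ⟨x, hx, rfl⟩
  rw [hd] at hmem
  obtain ⟨y, hy, hxy⟩ := hmem
  rw [Prod.mk.injEq, Prod.mk.injEq] at hxy
  obtain ⟨e1, e2, e3⟩ := hxy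
  have hρx : |ρ * x| ≤ |th (n + L)| := by
    rw [h0, abs_mul, abs_mul]
    exact mul_le_mul_of_nonneg_left hx (abs_nonneg _)
  have hcell : cell th (n + L) (ρ * x) = cell th (n + L) y := by
    rw [cell_scale hρ h0 h1]; exact e1
  constructor
  · rw [c.T_cell hρx hy hcell le_rfl]; exact e2.symm
  · intro z
    have hp1 := c.qq_pos n
    have hp2 := c.qq_pos (n + L)
    rw [B_iff s ξ (by omega), B_iff s ξ (by omega), c.Mx_cell hρx hy hcell]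
    constructor <;> intro h <;> linarith

end CF

lemma iter_A {n0 P : ℕ} (hA : ∀ n, n0 ≤ n → A (n + P) = A n) (k n : ℕ) (hn : n0 ≤ n) :
    A (n + k * P) = A n := by
  induction k with
  | zero => simp
  | succ k ih =>
    have : n + (k + 1) * P = (n + k * P) + P := by ring
    rw [this, hA _ (by nlinarith [Nat.zero_le (k * P)]), ih]

lemma iter_th {n0 P : ℕ} {r : ℝ} (ht : ∀ n, n0 ≤ n → th (n + P) = r * th n) (k n : ℕ)
    (hn : n0 ≤ n) : th (n + k * P) = r ^ k * th n := by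
  induction k with
  | zero => simp
  | succ k ih =>
    have : n + (k + 1) * P = (n + k * P) + P := by ring
    rw [this, ht _ (by nlinarith [Nat.zero_le (k * P)]), ih, pow_succ]
    ring

/-- eventually everything is periodic up to scaling -/
theorem CF.pig (c : CF ξ A qq pp th) {s : ℤ} (hs : |s| = 1) {n0 P : ℕ} {r : ℝ} (hP : 0 < P)
    (hr : 0 < r) (hA : ∀ n, n0 ≤ n → A (n + P) = A n)
    (ht : ∀ n, n0 ≤ n → th (n + P) = r * th n) :
    ∃ a b : ℕ, a < b ∧ ∃ e : ℤ, ∀ n, n0 + a * P ≤ n →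
      Sim s ξ qq th n ((b - a) * P) (r ^ (b - a)) e := by
  -- pigeonhole
  let F : ℕ → Set (Finset (ℤ × ℤ) × ℤ × ℤ) × Set (Finset (ℤ × ℤ) × ℤ × ℤ) × ℤ := fun k =>
    (dat s ξ qq th (n0 + k * P), dat s ξ qq th (n0 + k * P + 1),
      Mx s ξ (qq (n0 + k * P + 2)) 0 - Mx s ξ (qq (n0 + k * P + 1)) 0)
  have hF : ∀ k, F k ∈ ({t | t ⊆ W} ×ˢ ({t | t ⊆ W} ×ˢ Set.Icc (0 : ℤ) (A n0 * 244 + 162)) :
      Set (Set (Finset (ℤ × ℤ) × ℤ × ℤ) × Set (Finset (ℤ × ℤ) × ℤ × ℤ) × ℤ)) := by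
    intro k
    refine ⟨c.dat_sub hs _, c.dat_sub hs _, ?_, ?_⟩
    · have := c.Mx_mono s (Nat.le_succ (n0 + k * P)) 0
      show (0 : ℤ) ≤ _ - _
      have e : n0 + k * P + 2 = (n0 + k * P).succ + 1 := by omega
      rw [e]
      linarith
    · have := c.Mx_inc hs (n0 + k * P)
      show _ - _ ≤ _
      rw [iter_A hA k n0 le_rfl] at this
      linarith
  have hfin : ({t | t ⊆ W} ×ˢ ({t | t ⊆ W} ×ˢ Set.Icc (0 : ℤ) (A n0 * 244 + 162)) :
      Set (Set (Finset (ℤ × ℤ) × ℤ × ℤ) × Set (Finset (ℤ × ℤ) × ℤ × ℤ) × ℤ)).Finite :=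
    W_finite.finite_subsets.prod (W_finite.finite_subsets.prod (Set.finite_Icc _ _))
  obtain ⟨a, b, hab, hFab⟩ := Set.Finite.exists_lt_map_eq_of_forall_mem hF hfin
  simp only [F, Prod.mk.injEq] at hFab
  obtain ⟨d1, d2, d3⟩ := hFab
  set L := (b - a) * P with hL
  have hbL : n0 + b * P = n0 + a * P + L := by
    have : b = a + (b - a) := by omega
    rw [hL]
    nth_rewrite 1 [this]
    ring
  rw [hbL] at d1 d2 d3
  have hρ : 0 < r ^ (b - a) := pow_pos hr _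
  have hth : ∀ n, n0 ≤ n → th (n + L) = r ^ (b - a) * th n := fun n hn => iter_th ht _ n hn
  have hAA : ∀ n, n0 ≤ n → A (n + L) = A n := fun n hn => iter_A hA _ n hn
  have hn0 : n0 ≤ n0 + a * P := Nat.le_add_right _ _
  refine ⟨a, b, hab, Mx s ξ (qq (n0 + a * P + L + 1)) 0 - Mx s ξ (qq (n0 + a * P + 1)) 0, ?_⟩
  set m := n0 + a * P with hm
  have S0 : Sim s ξ qq th m L (r ^ (b - a))
      (Mx s ξ (qq (m + L + 1)) 0 - Mx s ξ (qq (m + 1)) 0) :=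
    c.sim_of_dat hρ (hth m hn0) (hth (m + 1) (by omega)) d1
  have S1 : Sim s ξ qq th (m + 1) L (r ^ (b - a))
      (Mx s ξ (qq (m + L + 1)) 0 - Mx s ξ (qq (m + 1)) 0) := by
    have e1 : m + L + 1 = m + 1 + L := by ring
    rw [e1] at d2
    have := c.sim_of_dat hρ (hth (m + 1) (by omega)) (hth (m + 2) (by omega)) d2
    have e2 : Mx s ξ (qq (m + 1 + L + 1)) 0 - Mx s ξ (qq (m + 1 + 1)) 0 =
      Mx s ξ (qq (m + L + 1)) 0 - Mx s ξ (qq (m + 1)) 0 := by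
      have e3 : m + 1 + L + 1 = m + L + 2 := by ring
      rw [e3]
      linarith
    rw [e2] at this
    exact this
  have key : ∀ k, Sim s ξ qq th (m + k) L (r ^ (b - a))
      (Mx s ξ (qq (m + L + 1)) 0 - Mx s ξ (qq (m + 1)) 0) ∧
      Sim s ξ qq th (m + k + 1) L (r ^ (b - a))
      (Mx s ξ (qq (m + L + 1)) 0 - Mx s ξ (qq (m + 1)) 0) := by
    intro k
    induction k with
    | zero => exact ⟨S0, S1⟩
    | succ k ih =>
      refine ⟨ih.2, ?_⟩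
      exact c.sim_step s (hAA (m + k + 1) (by omega)) (hth (m + k + 2) (by omega)) ih.1 ih.2
  intro n hn
  obtain ⟨k, rfl⟩ : ∃ k, n = m + k := ⟨n - m, by omega⟩
  exact (key k).1

end Pool.Agent.Q67.OR
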