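import Pool.Agent.Q67.OR.Cut

set_option autoImplicit false

namespace Pool.Agent.Q67.OR

open Finset

variable {ξ : ℝ} {A qq : ℕ → ℕ} {pp : ℕ → ℤ} {th : ℕ → ℝ}

/-- maximum of the partial sums over a block -/
noncomputable def Mx (s : ℤ) (ξ : ℝ) (q : ℕ) (x : ℝ) : ℤ :=
  if h : (range q).Nonempty then (range q).sup' h (T s ξ x) else 0

lemma B_iff (s : ℤ) (ξ : ℝ) {q : ℕ} (hq : 0 < q) (x : ℝ) (z : ℤ) :
    B s ξ q x z ↔ Mx s ξ q x < z := by
  have h : (range q).Nonempty := ⟨0, by simpa using hq⟩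
  unfold Mx B
  rw [dif_pos h, Finset.sup'_lt_iff]
  simp

lemma Mx_le (s : ℤ) (ξ : ℝ) {q : ℕ} (hq : 0 < q) (x : ℝ) (z : ℤ) :
    Mx s ξ q x ≤ z ↔ ∀ m < q, T s ξ x m ≤ z := by
  have h : (range q).Nonempty := ⟨0, by simpa using hq⟩
  unfold Mx
  rw [dif_pos h, Finset.sup'_le_iff]
  simp

lemma le_Mx (s : ℤ) (ξ : ℝ) {q m : ℕ} (hm : m < q) (x : ℝ) : T s ξ x m ≤ Mx s ξ q x :=
  (Mx_le s ξ (by omega) x _).1 le_rfl m hm

/-- the data of block `n + L` are those of block `n` after scaling -/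
def Sim (s : ℤ) (ξ : ℝ) (qq : ℕ → ℕ) (th : ℕ → ℝ) (n L : ℕ) (ρ : ℝ) (e : ℤ) : Prop :=
  ∀ x, |x| ≤ |th n| → T s ξ (ρ * x) (qq (n + L + 1)) = T s ξ x (qq (n + 1)) ∧
    ∀ z, B s ξ (qq (n + L + 1)) (ρ * x) (z + e) ↔ B s ξ (qq (n + 1)) x z

namespace CF

variable (c : CF ξ A qq pp th)
include c

lemma F_rec (s : ℤ) (n : ℕ) (x : ℝ) : T s ξ x (qq (n + 3)) =
    ∑ l ∈ range (A (n + 1)), T s ξ (x + l * th (n + 2)) (qq (n + 2)) +
      T s ξ (x + A (n + 1) * th (n + 2)) (qq (n + 1)) := by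
  rw [c.qqs (n + 1), c.T_blocks]

lemma B_rec (s : ℤ) (n : ℕ) (x : ℝ) (z : ℤ) : B s ξ (qq (n + 3)) x z ↔
    (∀ k < A (n + 1), B s ξ (qq (n + 2)) (x + k * th (n + 2))
      (z - ∑ l ∈ range k, T s ξ (x + l * th (n + 2)) (qq (n + 2)))) ∧
    B s ξ (qq (n + 1)) (x + A (n + 1) * th (n + 2))
      (z - ∑ l ∈ range (A (n + 1)), T s ξ (x + l * th (n + 2)) (qq (n + 2))) := by
  have hq : qq (n + 3) = A (n + 1) * qq (n + 2) + qq (n + 1) := c.qqs (n + 1)
  have hqp : 1 ≤ qq (n + 2) := c.qq_pos (n + 1)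
  constructor
  · intro h
    refine ⟨fun k hk m hm => ?_, fun m hm => ?_⟩
    · have h1 := h (k * qq (n + 2) + m) (by rw [hq]; nlinarith)
      rw [c.T_blocks] at h1
      linarith
    · have h1 := h (A (n + 1) * qq (n + 2) + m) (by rw [hq]; omega)
      rw [c.T_blocks] at h1
      linarith
  · rintro ⟨h1, h2⟩ m hm
    rw [hq] at hm
    by_cases hm2 : m < A (n + 1) * qq (n + 2)
    · have hk : m / qq (n + 2) < A (n + 1) := Nat.div_lt_of_lt_mul (by rw [mul_comm]; exact hm2)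
      have := h1 _ hk (m % qq (n + 2)) (Nat.mod_lt _ (by omega))
      have e : m / qq (n + 2) * qq (n + 2) + m % qq (n + 2) = m := Nat.div_add_mod' m _
      rw [← e, c.T_blocks]
      linarith
    · obtain ⟨m', rfl⟩ : ∃ m', m = A (n + 1) * qq (n + 2) + m' :=
        ⟨m - A (n + 1) * qq (n + 2), by omega⟩
      have := h2 m' (by omega)
      rw [c.T_blocks]
      linarith

lemma sim_step (s : ℤ) {n L : ℕ} {ρ : ℝ} {e : ℤ} (hA : A (n + 1 + L) = A (n + 1))
    (ht : th (n + 2 + L) = ρ * th (n + 2))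
    (h0 : Sim s ξ qq th n L ρ e) (h1 : Sim s ξ qq th (n + 1) L ρ e) :
    Sim s ξ qq th (n + 2) L ρ e := by
  intro x hx
  have ha : n + 2 + L + 1 = (n + L) + 3 := by ring
  have hb : n + L + 1 = n + 1 + L := by ring
  have hc : n + L + 2 = n + 2 + L := by ring
  have hd : n + 2 + 1 = n + 3 := by ring
  have hx1 : ∀ k : ℕ, k < A (n + 1) → |x + k * th (n + 2)| ≤ |th (n + 1)| := fun k hk =>
    c.win1 (n + 1) x k hx hk
  have hx2 := c.win2 n x hx
  have e1 : ∀ k : ℕ, ρ * x + (k : ℝ) * (ρ * th (n + 2)) = ρ * (x + k * th (n + 2)) := by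
    intro k; ring
  have hs1 : n + 1 + L + 1 = n + 2 + L := by ring
  have hs0 : n + L + 1 = n + 1 + L := by ring
  have hF1 : ∀ k < A (n + 1), T s ξ (ρ * (x + k * th (n + 2))) (qq (n + 2 + L)) =
      T s ξ (x + k * th (n + 2)) (qq (n + 2)) := by
    intro k hk
    have := (h1 _ (hx1 k hk)).1
    rwa [hs1] at this
  have hsum : ∀ k ≤ A (n + 1), ∑ l ∈ range k, T s ξ (ρ * (x + l * th (n + 2))) (qq (n + 2 + L)) =
      ∑ l ∈ range k, T s ξ (x + l * th (n + 2)) (qq (n + 2)) := by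
    intro k hk
    apply Finset.sum_congr rfl
    intro l hl
    rw [Finset.mem_range] at hl
    exact hF1 l (by omega)
  constructor
  · rw [ha, c.F_rec, hd, c.F_rec, hb, hc, hA, ht]
    simp only [e1]
    rw [hsum _ le_rfl]
    congr 1
    have := (h0 _ hx2).1
    rwa [hs0] at this
  · intro z
    rw [ha, c.B_rec, hd, c.B_rec, hb, hc, hA, ht]
    simp only [e1]
    apply and_congr
    · apply forall_congr'
      intro k
      apply forall_congr'
      intro hk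
      rw [hsum k hk.le]
      have := (h1 _ (hx1 k hk)).2 (z - ∑ l ∈ range k, T s ξ (x + l * th (n + 2)) (qq (n + 2)))
      rw [hs1] at this
      rw [← this]
      have e2 : z + e - ∑ l ∈ range k, T s ξ (x + l * th (n + 2)) (qq (n + 2)) =
        z - ∑ l ∈ range k, T s ξ (x + l * th (n + 2)) (qq (n + 2)) + e := by ring
      rw [e2]
    · rw [hsum _ le_rfl]
      have := (h0 _ hx2).2
        (z - ∑ l ∈ range (A (n + 1)), T s ξ (x + l * th (n + 2)) (qq (n + 2)))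
      rw [hs0] at this
      rw [← this]
      have e2 : z + e - ∑ l ∈ range (A (n + 1)), T s ξ (x + l * th (n + 2)) (qq (n + 2)) =
        z - ∑ l ∈ range (A (n + 1)), T s ξ (x + l * th (n + 2)) (qq (n + 2)) + e := by ring
      rw [e2]

lemma Mx_diff {s : ℤ} (hs : |s| = 1) {n : ℕ} {x y : ℝ} (hx : |x| ≤ |th n|) (hy : |y| ≤ |th n|)
    {q : ℕ} (hq0 : 0 < q) (hq : q ≤ qq (n + 1)) : |Mx s ξ q x - Mx s ξ q y| ≤ 162 := by
  have key : ∀ x y : ℝ, |x| ≤ |th n| → |y| ≤ |th n| → Mx s ξ q x ≤ Mx s ξ q y + 162 := by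
    intro x y hx hy
    rw [Mx_le s ξ hq0]
    intro m hm
    have h1 := le_Mx s ξ hm y
    have h2 := abs_le.1 (c.T_diff hs hx hy (m := m) (by omega))
    linarith
  have h1 := key x y hx hy
  have h2 := key y x hy hx
  rw [abs_le]
  constructor <;> linarith

lemma Mx_cell {s : ℤ} {n : ℕ} {x y : ℝ} (hx : |x| ≤ |th n|) (hy : |y| ≤ |th n|)
    (h : cell th n x = cell th n y) : Mx s ξ (qq (n + 1)) x = Mx s ξ (qq (n + 1)) y := by
  have hp := c.qq_pos n
  apply le_antisymm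
  · rw [Mx_le s ξ (by omega)]
    intro m hm
    rw [c.T_cell hx hy h hm.le]
    exact le_Mx s ξ hm y
  · rw [Mx_le s ξ (by omega)]
    intro m hm
    rw [← c.T_cell hx hy h hm.le]
    exact le_Mx s ξ hm x

lemma Mx_mono (s : ℤ) {m n : ℕ} (h : m ≤ n) (x : ℝ) :
    Mx s ξ (qq (m + 1)) x ≤ Mx s ξ (qq (n + 1)) x := by
  have hp := c.qq_pos m
  rw [Mx_le s ξ (by omega)]
  intro k hk
  exact le_Mx s ξ (lt_of_lt_of_le hk (c.qq_mono (by omega))) x

/-- increments of the maxima -/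
lemma Mx_inc {s : ℤ} (hs : |s| = 1) (n : ℕ) :
    Mx s ξ (qq (n + 2)) 0 ≤ Mx s ξ (qq (n + 1)) 0 + A n * 244 + 162 := by
  have hp1 := c.qq_pos n
  have hp2 : 1 ≤ qq (n + 2) := c.qq_pos (n + 1)
  rw [Mx_le s ξ (by omega)]
  intro m hm
  rw [c.qqs] at hm
  -- write m as k blocks and a rest below qq (n+1), with k at most A n
  obtain ⟨k, r, hk, hr, rfl⟩ : ∃ k r, k ≤ A n ∧ r < qq (n + 1) ∧ m = k * qq (n + 1) + r := by
    by_cases hm2 : m < A n * qq (n + 1)
    · refine ⟨m / qq (n + 1), m % qq (n + 1), ?_, Nat.mod_lt _ (by omega),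
        (Nat.div_add_mod' m _).symm⟩
      exact (Nat.div_lt_of_lt_mul (by rw [mul_comm]; exact hm2)).le
    · refine ⟨A n, m - A n * qq (n + 1), le_rfl, ?_, by omega⟩
      have h1 : m - A n * qq (n + 1) < qq n ∨ qq n = 0 := by omega
      have h2 := c.qq_mono_succ n
      omega
  rw [c.T_blocks]
  have hw : ∀ l : ℕ, l ≤ A n → |(0 : ℝ) + l * th (n + 1)| ≤ |th n| := by
    intro l hl
    have h1 := c.abs_th n
    rw [zero_add, abs_mul, Nat.abs_cast]
    have h2 : (l : ℝ) ≤ A n := by exact_mod_cast hl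
    have h3 := abs_nonneg (th (n + 1))
    have h4 := abs_nonneg (th (n + 2))
    nlinarith
  have h1 : ∑ l ∈ range k, T s ξ (0 + l * th (n + 1)) (qq (n + 1)) ≤ ∑ l ∈ range k, 244 := by
    apply Finset.sum_le_sum
    intro l hl
    rw [Finset.mem_range] at hl
    exact (abs_le.1 (c.T_block_bound hs (hw l (by omega)))).2
  rw [Finset.sum_const, Finset.card_range, nsmul_eq_mul] at h1
  have h0 : |(0 : ℝ)| ≤ |th n| := by rw [abs_zero]; exact abs_nonneg _
  have h2 := (abs_le.1 (c.T_diff hs (hw k hk) h0 hr.le)).2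
  have h3 := le_Mx s ξ hr 0
  have h4 : (k : ℤ) * 244 ≤ A n * 244 := by
    have : (k : ℤ) ≤ A n := by exact_mod_cast hk
    linarith
  linarith

end CF

end Pool.Agent.Q67.OR
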