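import Pool.Agent.Q67.OR.Defs

/-!
Lemma jobs of project OR (helper67): MP_425be5_nt, Ostrowski automaticity of the records of
deterministic random walks (full answer).
-/

set_option autoImplicit false

namespace Pool.Agent.Q67.OR

/-- JOB LAG (Lagrange's theorem on quadratic irrationals, in terms of the complete quotients
`cq` of Defs.lean).

PROOF. Put `x n = Int.fract (cq ξ n)` (irrational, in (0,1)), `a n = ⌊cq ξ (n+1)⌋` (a positive
integer, `cq ξ (n+1) = 1 / x n`, `x (n+1) = 1 / x n - a n`), and define integers by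
`q 0 = 0, q 1 = 1, q (n+2) = a n * q (n+1) + q n`, `p 0 = 1, p 1 = ⌊ξ⌋, p (n+2) = a n * p (n+1) + p n`,
`t n = q n * ξ - p n`. By induction `t (n+1) = - x n * t n` (`t 0 = -1`, `t 1 = fract ξ = x 0`),
and `q (n+1) * p n - q n * p (n+1) = (-1)^n`. As `t n` and `t (n+1)` have opposite signs and
`q (n+1) * t n - q n * t (n+1) = -(q (n+1) * p n - q n * p (n+1)) = ± 1`, both `q (n+1) * |t n| ≤ 1` and
`q n * |t (n+1)| ≤ 1`; `|t n| ≤ 1`. From `t (n+1) + x n * t n = 0` one gets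
`(q (n+1) + x n * q n) * ξ = p (n+1) + x n * p n`; put this into `A X^2 + B X Y + C Y^2`, which
vanishes at `(ξ, 1)`: `a' (x n)^2 + b' (x n) + c' = 0` with
`a' = A (p n)^2 + B (p n) (q n) + C (q n)^2`, `c'` the same with `n+1`,
`b' = 2 A p n p (n+1) + B (p n q (n+1) + p (n+1) q n) + 2 C q n q (n+1)`.
Put `p = q ξ - t`: `a' = A t^2 - (2 A ξ + B) q t` (with `t = t n, q = q n`), so
`|a'| ≤ |A| + |2 A ξ + B|`; the same bound for `c'`, and
`b' = 2 A t n t (n+1) - (2 A ξ + B) (q n t (n+1) + q (n+1) t n)`, `|b'| ≤ 2 |A| + 2 |2 A ξ + B|`.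
`a' ≠ 0` for `n ≥ 1` (`q n ≥ 1`): `a' = 0` means `A t = (2 A ξ + B) q` (divide by `t ≠ 0`), and with
`t = q ξ - p`: `A q ξ = - (A p + B q)`, so `ξ` would be rational.
So all `x n`, `n ≥ 1`, lie in the finite set of the roots of the polynomials `a' X^2 + b' X + c'`,
`a' ≠ 0`, with `|a'|, |b'|, |c'|` bounded integers; hence `x n0 = x (n0 + P)` for some `n0`, `P ≥ 1`
(pigeonhole), so `cq ξ (n0 + 1) = cq ξ (n0 + 1 + P)`, and by induction for all later `n`. -/
def J_LAG : Prop := ∀ (ξ : ℝ), Irrational ξ → ∀ A B C : ℤ, A ≠ 0 →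
  (A : ℝ) * ξ ^ 2 + B * ξ + C = 0 →
  ∃ n0 P : ℕ, 0 < P ∧ ∀ n, n0 ≤ n → cq ξ (n + P) = cq ξ n

/-- JOB REC (records are the strict left-to-right maxima and minima of a walk with steps 1, -1).

PROOF. Only the direction from left to right is not obvious. Let `0 < r`, `W r ≠ W n` for all
`n < r`. `W r = W (r-1) + 1` or `W r = W (r-1) - 1`. In the first case all `W n < W r` for `n < r`:
otherwise some `n < r` has `W n > W r` (as `≠`), `n ≤ r-1`, `W (r-1) < W r`; walking from `n` to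
`r-1` with steps `± 1` the value `W r` is taken (induction / discrete intermediate values), a
contradiction. The second case is symmetric. -/
def J_REC : Prop := ∀ W : ℕ → ℤ, (∀ n, W (n + 1) = W n + 1 ∨ W (n + 1) = W n - 1) →
  ∀ r : ℕ, (∀ n < r, W r ≠ W n) ↔ (r = 0 ∨ (∀ n < r, W n < W r) ∨ (∀ n < r, W r < W n))

/-- JOB VAL (the largest number with `i` Ostrowski digits).

PROOF. Strong induction on `i`. `i = 0`: `0 < qq 1 = 1`. `i = 1`: `b 0 < A 0 = qq 2` (as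
`qq 2 = A 0 * qq 1 + qq 0`). `i + 2`, top digit `b (i+1)`: if `b (i+1) ≤ A (i+1) - 1` then the sum is
`< qq (i+2) + (A (i+1) - 1) * qq (i+2) ≤ qq (i+3)`. If `b (i+1) = A (i+1)` then `b i = 0`, the sum is
`< qq (i+1) + A (i+1) * qq (i+2) = qq (i+3)`. -/
def J_VAL : Prop := ∀ (A qq b : ℕ → ℕ), (∀ n, 1 ≤ A n) → qq 0 = 0 → qq 1 = 1 →
  (∀ n, qq (n + 2) = A n * qq (n + 1) + qq n) →
  b 0 < A 0 → (∀ i, b i ≤ A i) → (∀ i, b (i + 1) = A (i + 1) → b i = 0) →
  ∀ i, ∑ l ∈ Finset.range i, b l * qq (l + 1) < qq (i + 1)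

/-- JOB WIN (the points `pos` stay in a window).

PROOF. Prove by induction on the list `d`, for all `i`, the signed statement
`-(th (i+1))^2 ≤ pos th i d * th (i+1) ∧ pos th i d * th (i+1) ≤ - th i * th (i+1)`.
`[]`: `0`, since `th i * th (i+1) < 0`. `b :: d`: `y = pos th (i+1) d` satisfies
`-(th (i+2))^2 ≤ y * th (i+2) ≤ - th (i+1) * th (i+2)`; `th (i+2)` and `th (i+1)` have opposite signs,
so (divide by `th (i+2)`, multiply by `th (i+1)`)
`-(th (i+1))^2 ≤ y * th (i+1) ≤ - th (i+2) * th (i+1)`. Adding `b * th (i+1)^2` with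
`0 ≤ b ≤ A i` and `th i = th (i+2) - A i * th (i+1)`:
`b * th(i+1)^2 + y * th (i+1) ≤ A i * th (i+1)^2 - th (i+2) * th (i+1) = - th i * th (i+1)`. Then
`|pos| * |th (i+1)| ≤ max (th (i+1)^2, |th i| |th (i+1)|) = |th i| |th (i+1)|`. -/
def J_WIN : Prop := ∀ (ξ : ℝ) (A qq : ℕ → ℕ) (pp : ℕ → ℤ) (th : ℕ → ℝ), CF ξ A qq pp th →
  ∀ (d : List ℕ) (i : ℕ), ok A i d → |pos th i d| ≤ |th i|

end Pool.Agent.Q67.OR
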